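import Pool.Agent.TH623.CD.Pert

set_option autoImplicit false

open Set Filter MeasureTheory
open scoped Topology ContDiff ComplexConjugate

namespace Pool.Agent.TH623.CD

/-- curves of constant curvature are multiply covered circles -/
theorem classify {γ : ℝ → ℂ} (hγ : IsClosedCurve γ) (hk : ∀ u, deriv (curv γ) u = 0) :
    ∃ (c w : ℂ) (m : ℤ) (ψ : ℝ → ℝ), w ≠ 0 ∧ m ≠ 0 ∧ ContDiff ℝ ∞ ψ ∧
      (∀ u, 0 < deriv ψ u) ∧ (∀ u, ψ (u + 1) = ψ u + 2 * Real.pi) ∧
      ∀ u, γ u = c + w * Complex.exp (((m : ℝ) * ψ u : ℝ) * Complex.I) := by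
  set k₀ := curv γ 0 with hk₀
  have hkc : ∀ u, curv γ u = k₀ := fun u =>
    is_const_of_deriv_eq_zero (hγ.contDiff_curv.differentiable (by simp)) hk u 0
  set s : ℝ → ℝ := fun u => ∫ x in (0 : ℝ)..u, ‖deriv γ x‖ with hs
  have hsd : ∀ u, HasDerivAt s ‖deriv γ u‖ u := fun u =>
    intervalIntegral.integral_hasDerivAt_right (hγ.continuous_deriv.norm.intervalIntegrable _ _)
      (hγ.continuous_deriv.norm.stronglyMeasurableAtFilter _ _)
      hγ.continuous_deriv.norm.continuousAt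
  have hsd' : deriv s = fun u => ‖deriv γ u‖ := funext fun u => (hsd u).deriv
  have hss : ContDiff ℝ ∞ s := by
    rw [contDiff_infty_iff_deriv]
    exact ⟨fun u => (hsd u).differentiableAt, by rw [hsd']; exact hγ.contDiff_speed⟩
  have hs0 : s 0 = 0 := intervalIntegral.integral_same
  set L := len γ with hL
  have hLpos : 0 < L := hγ.len_pos
  have hsper : ∀ u, s (u + 1) = s u + L := by
    intro u
    have hper : Function.Periodic (fun u => ‖deriv γ u‖) 1 := fun u => by
      show ‖deriv γ (u + 1)‖ = ‖deriv γ u‖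
      rw [hγ.deriv_per]
    have h1 := hper.intervalIntegral_add_eq u 0
    rw [zero_add] at h1
    have h2 := intervalIntegral.integral_add_adjacent_intervals
      (hγ.continuous_deriv.norm.intervalIntegrable (μ := volume) 0 u)
      (hγ.continuous_deriv.norm.intervalIntegrable (μ := volume) u (u + 1))
    show (∫ x in (0 : ℝ)..(u + 1), ‖deriv γ x‖) = (∫ x in (0 : ℝ)..u, ‖deriv γ x‖) + len γ
    rw [← h2, h1]
    rfl
  -- the tangent
  have hτd : ∀ u, HasDerivAt (tau γ) ((‖deriv γ u‖ : ℂ) * ((k₀ : ℂ) * nu γ u)) u := by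
    intro u
    have h1 := (hγ.contDiff_tau.differentiable (by simp) u).hasDerivAt
    rw [hγ.deriv_tau, hkc] at h1
    exact h1
  have hτ : ∀ u, tau γ u = tau γ 0 * Complex.exp ((k₀ * s u : ℝ) * Complex.I) := by
    have h1 : ∀ u, HasDerivAt (fun u => tau γ u * Complex.exp ((-(k₀ * s u) : ℝ) * Complex.I))
        0 u := by
      intro u
      have h2 : HasDerivAt (fun u => ((-(k₀ * s u) : ℝ) : ℂ)) ((-(k₀ * ‖deriv γ u‖) : ℝ) : ℂ) u :=
        (((hsd u).const_mul k₀).neg).ofReal_comp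
      have h3 := (hτd u).mul (h2.mul_const Complex.I).cexp
      refine h3.congr_deriv ?_
      unfold nu
      push_cast
      ring
    have h2 : ∀ u, tau γ u * Complex.exp ((-(k₀ * s u) : ℝ) * Complex.I) = tau γ 0 := by
      intro u
      have h3 := is_const_of_deriv_eq_zero (fun u => (h1 u).differentiableAt)
        (fun u => (h1 u).deriv) u 0
      rw [h3, hs0]
      simp
    intro u
    rw [← h2 u, mul_assoc, ← Complex.exp_add]
    have : ((-(k₀ * s u) : ℝ) : ℂ) * Complex.I + ((k₀ * s u : ℝ) : ℂ) * Complex.I = 0 := by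
      push_cast; ring
    rw [this, Complex.exp_zero, mul_one]
  have hγd : ∀ u, HasDerivAt γ ((‖deriv γ u‖ : ℂ) * tau γ u) u := by
    intro u
    rw [← hγ.deriv_eq]
    exact (hγ.differentiable u).hasDerivAt
  have hk0 : k₀ ≠ 0 := by
    intro h0
    have hτc : ∀ u, tau γ u = tau γ 0 := by
      intro u; rw [hτ u, h0]; simp
    have h1 : ∀ u, HasDerivAt (fun u => (conj (tau γ 0) * γ u).re) ‖deriv γ u‖ u := by
      intro u
      have h2 := Complex.reCLM.hasFDerivAt.comp_hasDerivAt u ((hγd u).const_mul (conj (tau γ 0)))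
      refine h2.congr_deriv ?_
      have h3 : conj (tau γ 0) * ((‖deriv γ u‖ : ℂ) * tau γ u) = (‖deriv γ u‖ : ℂ) := by
        rw [hτc u]
        linear_combination (‖deriv γ u‖ : ℂ) * hγ.conj_tau_mul 0
      rw [h3]
      exact Complex.ofReal_re _
    have h2 : StrictMono (fun u => (conj (tau γ 0) * γ u).re) :=
      strictMono_of_deriv_pos fun u => by rw [(h1 u).deriv]; exact hγ.speed_pos u
    have h3 := h2 (show (0 : ℝ) < 0 + 1 by norm_num)
    simp only [hγ.periodic] at h3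
    exact lt_irrefl _ h3
  have hk0c : (k₀ : ℂ) ≠ 0 := by exact_mod_cast hk0
  have hτ0 : tau γ 0 ≠ 0 := by
    rw [← norm_pos_iff, hγ.norm_tau]; exact one_pos
  set w : ℂ := tau γ 0 / (Complex.I * k₀) with hw
  have hw0 : w ≠ 0 := div_ne_zero hτ0 (mul_ne_zero Complex.I_ne_zero hk0c)
  have hform : ∀ u, γ u = (γ 0 - w) + w * Complex.exp ((k₀ * s u : ℝ) * Complex.I) := by
    have h1 : ∀ u, HasDerivAt (fun u => γ u - w * Complex.exp ((k₀ * s u : ℝ) * Complex.I)) 0 u := by
      intro u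
      have h2 : HasDerivAt (fun u => ((k₀ * s u : ℝ) : ℂ)) ((k₀ * ‖deriv γ u‖ : ℝ) : ℂ) u :=
        ((hsd u).const_mul k₀).ofReal_comp
      have h3 := (hγd u).sub (((h2.mul_const Complex.I).cexp).const_mul w)
      refine h3.congr_deriv ?_
      rw [hτ u, hw]
      have hI := Complex.I_ne_zero
      push_cast
      field_simp
      ring
    intro u
    have h3 := is_const_of_deriv_eq_zero (fun u => (h1 u).differentiableAt)
      (fun u => (h1 u).deriv) u 0
    rw [hs0] at h3
    simp only [mul_zero, Complex.ofReal_zero, zero_mul, Complex.exp_zero, mul_one] at h3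
    linear_combination h3
  -- winding number
  have h1 : Complex.exp ((k₀ * L : ℝ) * Complex.I) = 1 := by
    have h2 := hform (0 + 1)
    rw [hγ.periodic, hsper 0, hs0, zero_add] at h2
    have h3 : w * Complex.exp ((k₀ * L : ℝ) * Complex.I) = w * 1 := by linear_combination -h2
    exact mul_left_cancel₀ hw0 h3
  obtain ⟨m, hm⟩ := Complex.exp_eq_one_iff.1 h1
  have hm' : k₀ * L = m * (2 * Real.pi) := by
    have h2 : ((k₀ * L : ℝ) : ℂ) = ((m * (2 * Real.pi) : ℝ) : ℂ) := by
      apply mul_right_cancel₀ Complex.I_ne_zero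
      rw [hm]; push_cast; ring
    exact_mod_cast h2
  have hm0 : m ≠ 0 := by
    rintro rfl
    simp only [Int.cast_zero, zero_mul, mul_eq_zero] at hm'
    rcases hm' with h | h
    · exact hk0 h
    · exact hLpos.ne' h
  refine ⟨γ 0 - w, w, m, fun u => 2 * Real.pi / L * s u, hw0, hm0, contDiff_const.mul hss,
    fun u => ?_, fun u => ?_, fun u => ?_⟩
  · rw [((hsd u).const_mul (2 * Real.pi / L)).deriv]
    exact mul_pos (by positivity) (hγ.speed_pos u)
  · show 2 * Real.pi / L * s (u + 1) = 2 * Real.pi / L * s u + 2 * Real.pi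
    rw [hsper]
    field_simp
  · have h2 : k₀ = m * (2 * Real.pi) / L := by
      rw [← hm']; field_simp
    have h3 : k₀ * s u = (m : ℝ) * (2 * Real.pi / L * s u) := by
      rw [h2]; ring
    rw [hform u, h3]

theorem psi_int {ψ : ℝ → ℝ} (hp : ∀ u, ψ (u + 1) = ψ u + 2 * Real.pi) (n : ℤ) :
    ψ n = ψ 0 + 2 * Real.pi * n := by
  have h1 : Function.Periodic (fun u => ψ u - 2 * Real.pi * u) 1 := by
    intro u
    show ψ (u + 1) - 2 * Real.pi * (u + 1) = ψ u - 2 * Real.pi * u
    rw [hp]; ring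
  have h2 := h1.int_mul n 0
  simp only [mul_one, zero_add, mul_zero, sub_zero] at h2
  linarith

theorem psi_surj {ψ : ℝ → ℝ} (hc : Continuous ψ) (hp : ∀ u, ψ (u + 1) = ψ u + 2 * Real.pi)
    (y : ℝ) : ∃ u, ψ u = y := by
  have hpi := Real.pi_pos
  refine mem_range_of_exists_le_of_exists_ge hc
    ⟨((⌊(y - ψ 0) / (2 * Real.pi)⌋ : ℤ) : ℝ), ?_⟩ ⟨((⌈(y - ψ 0) / (2 * Real.pi)⌉ : ℤ) : ℝ), ?_⟩
  · rw [psi_int hp]
    have h1 := Int.floor_le ((y - ψ 0) / (2 * Real.pi))
    rw [le_div_iff₀ (by positivity)] at h1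
    linarith
  · rw [psi_int hp]
    have h1 := Int.le_ceil ((y - ψ 0) / (2 * Real.pi))
    rw [div_le_iff₀ (by positivity)] at h1
    linarith

/-- the simply covered case -/
theorem isCircle_of_one {γ : ℝ → ℂ} {c w : ℂ} {m : ℤ} {ψ : ℝ → ℝ} (hw : w ≠ 0)
    (hm : (m : ℝ) * m = 1) (hψ : ContDiff ℝ ∞ ψ) (hpos : ∀ u, 0 < deriv ψ u)
    (hp : ∀ u, ψ (u + 1) = ψ u + 2 * Real.pi)
    (hγ : ∀ u, γ u = c + w * Complex.exp (((m : ℝ) * ψ u : ℝ) * Complex.I)) : IsCircle γ := by
  have hmono : StrictMono ψ := strictMono_of_deriv_pos hpos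
  have hpi := Real.pi_pos
  refine ⟨c, ‖w‖, norm_pos_iff.2 hw, ?_, ?_⟩
  · ext z
    rw [mem_sphere_iff_norm]
    constructor
    · rintro ⟨u, rfl⟩
      rw [hγ u, add_sub_cancel_left, norm_mul, Complex.norm_exp_ofReal_mul_I, mul_one]
    · intro hz
      have h1 : ‖(z - c) / w‖ = 1 := by
        rw [norm_div, hz, div_self (norm_pos_iff.2 hw).ne']
      obtain ⟨u, hu⟩ := psi_surj hψ.continuous hp ((m : ℝ) * ((z - c) / w).arg)
      refine ⟨u, ?_⟩
      have h2 : (m : ℝ) * ψ u = ((z - c) / w).arg := by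
        rw [hu, ← mul_assoc, hm, one_mul]
      rw [hγ u, h2]
      have h3 := Complex.norm_mul_exp_arg_mul_I ((z - c) / w)
      rw [h1, Complex.ofReal_one, one_mul] at h3
      rw [h3]
      field_simp
      ring
  · intro u hu v hv huv
    rw [hγ u, hγ v] at huv
    have h1 : Complex.exp (((m : ℝ) * ψ u : ℝ) * Complex.I) =
        Complex.exp (((m : ℝ) * ψ v : ℝ) * Complex.I) := by
      apply mul_left_cancel₀ hw
      linear_combination huv
    rw [Complex.exp_eq_exp_iff_exists_int] at h1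
    obtain ⟨n, hn⟩ := h1
    have h2 : (m : ℝ) * ψ u = (m : ℝ) * ψ v + n * (2 * Real.pi) := by
      have h3 : ((((m : ℝ) * ψ u : ℝ)) : ℂ) =
          (((m : ℝ) * ψ v + n * (2 * Real.pi) : ℝ) : ℂ) := by
        apply mul_right_cancel₀ Complex.I_ne_zero
        rw [hn]; push_cast; ring
      exact_mod_cast h3
    have h3 : ψ u - ψ v = ((m * n : ℤ) : ℝ) * (2 * Real.pi) := by
      push_cast
      have h4 : (m : ℝ) * ((m : ℝ) * ψ u) = (m : ℝ) * ((m : ℝ) * ψ v + n * (2 * Real.pi)) := by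
        rw [h2]
      have h5 : (m : ℝ) * m * ψ u = (m : ℝ) * m * ψ v + m * n * (2 * Real.pi) := by linarith
      rw [hm] at h5
      linarith
    have hbd : ∀ x ∈ Ico (0 : ℝ) 1, ψ 0 ≤ ψ x ∧ ψ x < ψ 0 + 2 * Real.pi := by
      intro x hx
      refine ⟨hmono.monotone hx.1, ?_⟩
      rw [← hp 0, zero_add]
      exact hmono hx.2
    have hu' := hbd u hu
    have hv' := hbd v hv
    have h4 : m * n = 0 := by
      have h5 : |((m * n : ℤ) : ℝ)| < 1 := by
        rw [abs_lt]
        constructor <;> nlinarith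
      have h6 : |m * n| < 1 := by exact_mod_cast h5
      exact Int.abs_lt_one_iff.1 h6
    rw [h4] at h3
    exact hmono.injective (by simp at h3; linarith)

end Pool.Agent.TH623.CD
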