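import Pool.Agent.TH623.CD.Evol

set_option autoImplicit false

open Set Filter MeasureTheory
open scoped Topology ContDiff ComplexConjugate

namespace Pool.Agent.TH623.CD

theorem IsReparam.sign {φ : ℝ → ℝ} (h : IsReparam φ) :
    ((∀ u, 0 < deriv φ u) ∧ ∀ u, φ (u + 1) = φ u + 1) ∨
    ((∀ u, deriv φ u < 0) ∧ ∀ u, φ (u + 1) = φ u - 1) := by
  obtain ⟨hs, hne, hper⟩ := h
  have hc : Continuous (deriv φ) := (contDiff_infty_iff_deriv.1 hs).2.continuous
  have h1 : (∀ u, 0 < deriv φ u) ∨ (∀ u, deriv φ u < 0) := by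
    by_contra hcon
    push Not at hcon
    obtain ⟨⟨a, ha⟩, ⟨b, hb⟩⟩ := hcon
    obtain ⟨c, hc⟩ := mem_range_of_exists_le_of_exists_ge hc ⟨a, ha⟩ ⟨b, hb⟩
    exact hne c hc
  rcases h1 with h1 | h1
  · left
    refine ⟨h1, ?_⟩
    rcases hper with h2 | h2
    · exact h2
    · exfalso
      have h3 : StrictMono φ := strictMono_of_deriv_pos h1
      have h4 := h3 (show (0 : ℝ) < 0 + 1 by norm_num)
      rw [h2 0] at h4
      linarith
  · right
    refine ⟨h1, ?_⟩
    rcases hper with h2 | h2
    · exfalso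
      have h3 : StrictAnti φ := strictAnti_of_deriv_neg h1
      have h4 := h3 (show (0 : ℝ) < 0 + 1 by norm_num)
      rw [h2 0] at h4
      linarith
    · exact h2

theorem reparam_integral {φ : ℝ → ℝ} (h : IsReparam φ) {f : ℝ → ℝ} (hf : Continuous f)
    (hp : ∀ u, f (u + 1) = f u) :
    (∫ u in (0 : ℝ)..1, f (φ u) * |deriv φ u| = ∫ u in (0 : ℝ)..1, f u) ∧
    |∫ u in (0 : ℝ)..1, f (φ u) * deriv φ u| = |∫ u in (0 : ℝ)..1, f u| := by
  have hc : Continuous (deriv φ) := (contDiff_infty_iff_deriv.1 h.1).2.continuous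
  have hsub : ∫ u in (0 : ℝ)..1, f (φ u) * deriv φ u = ∫ u in (φ 0)..(φ 1), f u :=
    intervalIntegral.integral_comp_mul_deriv (g := f) (f := φ) (f' := deriv φ)
      (fun u _ => (h.1.differentiable (by simp) u).hasDerivAt) hc.continuousOn hf
  have hper : Function.Periodic f 1 := hp
  rcases h.sign with ⟨h1, h2⟩ | ⟨h1, h2⟩
  · have e1 : ∫ u in (φ 0)..(φ 1), f u = ∫ u in (0 : ℝ)..1, f u := by
      have h3 := h2 0
      rw [zero_add] at h3
      rw [h3]
      have h4 := hper.intervalIntegral_add_eq (φ 0) 0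
      rwa [zero_add] at h4
    have e2 : ∀ u, |deriv φ u| = deriv φ u := fun u => abs_of_pos (h1 u)
    simp only [e2]
    rw [hsub, e1]
    exact ⟨rfl, rfl⟩
  · have e1 : ∫ u in (φ 0)..(φ 1), f u = -∫ u in (0 : ℝ)..1, f u := by
      have h3 := h2 0
      rw [zero_add] at h3
      rw [h3, intervalIntegral.integral_symm]
      have h4 := hper.intervalIntegral_add_eq (φ 0 - 1) 0
      rw [zero_add, sub_add_cancel] at h4
      rw [h4]
    have e2 : ∀ u, |deriv φ u| = -deriv φ u := fun u => abs_of_neg (h1 u)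
    simp only [e2, mul_neg, intervalIntegral.integral_neg]
    rw [hsub, e1, neg_neg, abs_neg]
    exact ⟨rfl, rfl⟩

namespace IsClosedCurve

variable {x : ℝ → ℂ} (hx : IsClosedCurve x)

include hx

theorem continuous_deriv : Continuous (deriv x) := hx.contDiff_deriv.continuous

theorem deriv_per (u : ℝ) : deriv x (u + 1) = deriv x u := hx.deriv_periodic hx.periodic u

theorem deriv_comp {φ : ℝ → ℝ} (h : IsReparam φ) (u : ℝ) :
    deriv (fun u => x (φ u)) u = ((deriv φ u : ℝ) : ℂ) * deriv x (φ u) := by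
  have h1 : HasDerivAt φ (deriv φ u) u := (h.1.differentiable (by simp) u).hasDerivAt
  have h2 : HasDerivAt x (deriv x (φ u)) (φ u) := (hx.differentiable _).hasDerivAt
  have h3 := (h2.scomp u h1).deriv
  rw [Complex.real_smul] at h3
  exact h3

theorem comp {φ : ℝ → ℝ} (h : IsReparam φ) : IsClosedCurve (fun u => x (φ u)) where
  smooth := hx.smooth.comp h.1
  periodic u := by
    rcases h.2.2 with h2 | h2
    · show x (φ (u + 1)) = x (φ u)
      rw [h2, hx.periodic]
    · show x (φ (u + 1)) = x (φ u)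
      rw [h2]
      have := hx.periodic (φ u - 1)
      rw [sub_add_cancel] at this
      exact this.symm
  immersed u := by
    rw [hx.deriv_comp h]
    exact mul_ne_zero (by exact_mod_cast h.2.1 u) (hx.immersed _)

theorem len_comp {φ : ℝ → ℝ} (h : IsReparam φ) : len (fun u => x (φ u)) = len x := by
  have h1 := (reparam_integral h (f := fun u => ‖deriv x u‖) hx.continuous_deriv.norm
    (fun u => by show ‖deriv x (u + 1)‖ = ‖deriv x u‖; rw [hx.deriv_per])).1
  unfold len
  rw [← h1]
  congr 1
  funext u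
  rw [hx.deriv_comp h, norm_mul, Complex.norm_real, Real.norm_eq_abs, mul_comm]

theorem area_comp {φ : ℝ → ℝ} (h : IsReparam φ) :
    |area (fun u => x (φ u))| = |area x| := by
  have h1 := (reparam_integral h (f := fun u => (conj (x u) * deriv x u).im / 2)
    ((Complex.continuous_im.comp ((Complex.continuous_conj.comp hx.smooth.continuous).mul
      hx.continuous_deriv)).div_const 2)
    (fun u => by
      show (conj (x (u + 1)) * deriv x (u + 1)).im / 2 = (conj (x u) * deriv x u).im / 2
      rw [hx.deriv_per, hx.periodic])).2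
  unfold area
  rw [← h1]
  congr 2
  funext u
  rw [hx.deriv_comp h]
  have : conj (x (φ u)) * (((deriv φ u : ℝ) : ℂ) * deriv x (φ u)) =
      ((deriv φ u : ℝ) : ℂ) * (conj (x (φ u)) * deriv x (φ u)) := by ring
  rw [this, Complex.im_ofReal_mul]
  ring

theorem deriv_affine (a b : ℂ) (u : ℝ) : deriv (fun u => a * x u + b) u = a * deriv x u :=
  (((hx.differentiable u).hasDerivAt.const_mul a).add_const b).deriv

theorem affine {a : ℂ} (ha : a ≠ 0) (b : ℂ) : IsClosedCurve (fun u => a * x u + b) where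
  smooth := (contDiff_const.mul hx.smooth).add contDiff_const
  periodic u := by
    show a * x (u + 1) + b = a * x u + b
    rw [hx.periodic]
  immersed u := by
    rw [hx.deriv_affine]
    exact mul_ne_zero ha (hx.immersed u)

theorem len_affine (a b : ℂ) : len (fun u => a * x u + b) = ‖a‖ * len x := by
  unfold len
  simp only [hx.deriv_affine, norm_mul]
  exact intervalIntegral.integral_const_mul _ _

theorem area_affine (a b : ℂ) : area (fun u => a * x u + b) = ‖a‖ ^ 2 * area x := by
  have hs : ContDiff ℝ ∞ (fun u => (conj b * a * x u).im) :=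
    Complex.imCLM.contDiff.comp (contDiff_const.mul hx.smooth)
  have hper : ∀ u, (conj b * a * x (u + 1)).im = (conj b * a * x u).im := by
    intro u; rw [hx.periodic]
  have h1 := integral_deriv_periodic hs hper
  have e1 : ∀ u, deriv (fun u => (conj b * a * x u).im) u = (conj b * a * deriv x u).im := by
    intro u
    have a1 := (hx.differentiable u).hasDerivAt.const_mul (conj b * a)
    exact (Complex.imCLM.hasFDerivAt.comp_hasDerivAt u a1).deriv
  simp only [e1] at h1
  unfold area
  have e2 : ∀ u, (conj (a * x u + b) * deriv (fun u => a * x u + b) u).im / 2 =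
      ‖a‖ ^ 2 * ((conj (x u) * deriv x u).im / 2) + (1 / 2) * (conj b * a * deriv x u).im := by
    intro u
    rw [hx.deriv_affine]
    have e3 : conj (a * x u + b) * (a * deriv x u) =
        ((‖a‖ ^ 2 : ℝ) : ℂ) * (conj (x u) * deriv x u) + conj b * a * deriv x u := by
      have e4 : ((‖a‖ ^ 2 : ℝ) : ℂ) = conj a * a := by
        rw [← Complex.normSq_eq_norm_sq, mul_comm, Complex.mul_conj]
      rw [e4, map_add, map_mul]; ring
    rw [e3, Complex.add_im, Complex.im_ofReal_mul]
    ring
  simp only [e2]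
  have c1 : Continuous (fun u => (conj (x u) * deriv x u).im / 2) :=
    (Complex.continuous_im.comp ((Complex.continuous_conj.comp hx.smooth.continuous).mul
      hx.continuous_deriv)).div_const 2
  have c2 : Continuous (fun u => (conj b * a * deriv x u).im) :=
    Complex.continuous_im.comp (continuous_const.mul hx.continuous_deriv)
  have c3 : Continuous (fun u => ‖a‖ ^ 2 * ((conj (x u) * deriv x u).im / 2)) :=
    continuous_const.mul c1
  have c4 : Continuous (fun u => (1 / 2) * (conj b * a * deriv x u).im) :=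
    continuous_const.mul c2
  rw [intervalIntegral.integral_add (c3.intervalIntegrable _ _) (c4.intervalIntegrable _ _),
    intervalIntegral.integral_const_mul, intervalIntegral.integral_const_mul, h1, mul_zero,
    add_zero]

theorem deriv_conj (u : ℝ) : deriv (fun u => conj (x u)) u = conj (deriv x u) := by
  have a1 := (hx.differentiable u).hasDerivAt
  have := (Complex.conjCLE : ℂ ≃L[ℝ] ℂ).hasFDerivAt.comp_hasDerivAt u a1
  have h2 : HasDerivAt (fun u => conj (x u)) (conj (deriv x u)) u := by simpa using! this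
  exact h2.deriv

theorem conj_curve : IsClosedCurve (fun u => conj (x u)) where
  smooth := Complex.conjCLE.contDiff.comp hx.smooth
  periodic u := by
    show conj (x (u + 1)) = conj (x u)
    rw [hx.periodic]
  immersed u := by
    rw [hx.deriv_conj]
    simpa using hx.immersed u

theorem len_conj : len (fun u => conj (x u)) = len x := by
  unfold len
  simp only [hx.deriv_conj, RCLike.norm_conj]

theorem area_conj : area (fun u => conj (x u)) = -area x := by
  unfold area
  rw [← intervalIntegral.integral_neg]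
  congr 1
  funext u
  rw [hx.deriv_conj, Complex.conj_conj]
  simp [Complex.mul_im]
  ring

/-- length and area under similarities and reparametrisations -/
theorem sim_reparam {S : ℂ → ℂ} (hS : IsSimilarity S) {φ : ℝ → ℝ} (hφ : IsReparam φ) :
    IsClosedCurve (fun u => S (x (φ u))) ∧ ∃ r : ℝ, 0 < r ∧
      len (fun u => S (x (φ u))) = r * len x ∧
      |area (fun u => S (x (φ u)))| = r ^ 2 * |area x| := by
  have h1 := hx.comp hφ
  obtain ⟨a, b, ha, hab | hab⟩ := hS
  · have e : (fun u => S (x (φ u))) = fun u => a * (fun u => x (φ u)) u + b := by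
      funext u; exact hab _
    rw [e]
    refine ⟨h1.affine ha b, ‖a‖, norm_pos_iff.2 ha, ?_, ?_⟩
    · rw [h1.len_affine, hx.len_comp hφ]
    · rw [h1.area_affine, abs_mul, hx.area_comp hφ, abs_of_nonneg (by positivity : 0 ≤ ‖a‖ ^ 2)]
  · have h2 := h1.conj_curve
    have e : (fun u => S (x (φ u))) = fun u => a * (fun u => conj ((fun u => x (φ u)) u)) u + b := by
      funext u; exact hab _
    rw [e]
    refine ⟨h2.affine ha b, ‖a‖, norm_pos_iff.2 ha, ?_, ?_⟩
    · rw [h2.len_affine, h1.len_conj, hx.len_comp hφ]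
    · rw [h2.area_affine, abs_mul, h1.area_conj, abs_neg, hx.area_comp hφ,
        abs_of_nonneg (by positivity : 0 ≤ ‖a‖ ^ 2)]

theorem len_pos : 0 < len x := by
  unfold len
  exact intervalIntegral.intervalIntegral_pos_of_pos
    (hx.continuous_deriv.norm.intervalIntegrable _ _) (fun u => hx.speed_pos u) zero_lt_one

end IsClosedCurve

/-- length and area are continuous under `C¹` convergence -/
theorem tendsto_len_area {y : ℕ → ℝ → ℂ} {g : ℝ → ℂ} (hy : ∀ n, IsClosedCurve (y n))
    (hg : IsClosedCurve g) (h0 : ∀ (n : ℕ) u, ‖y n u - g u‖ < 1 / ((n : ℝ) + 1))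
    (h1 : ∀ (n : ℕ) u, ‖deriv (y n) u - deriv g u‖ < 1 / ((n : ℝ) + 1)) :
    Tendsto (fun n => len (y n)) atTop (𝓝 (len g)) ∧
    Tendsto (fun n => area (y n)) atTop (𝓝 (area g)) := by
  have hlim : Tendsto (fun n : ℕ => 1 / ((n : ℝ) + 1)) atTop (𝓝 0) :=
    tendsto_one_div_add_atTop_nhds_zero_nat
  have t0 : ∀ u, Tendsto (fun n => y n u) atTop (𝓝 (g u)) := by
    intro u
    rw [tendsto_iff_norm_sub_tendsto_zero]
    exact squeeze_zero (fun n => norm_nonneg _) (fun n => (h0 n u).le) hlim
  have t1 : ∀ u, Tendsto (fun n => deriv (y n) u) atTop (𝓝 (deriv g u)) := by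
    intro u
    rw [tendsto_iff_norm_sub_tendsto_zero]
    exact squeeze_zero (fun n => norm_nonneg _) (fun n => (h1 n u).le) hlim
  have hle : ∀ n : ℕ, 1 / ((n : ℝ) + 1) ≤ 1 := by
    intro n
    rw [div_le_one (by positivity)]
    have : (0 : ℝ) ≤ n := n.cast_nonneg
    linarith
  have b0 : ∀ n u, ‖y n u‖ ≤ ‖g u‖ + 1 := by
    intro n u
    have h2 : ‖y n u‖ ≤ ‖g u‖ + ‖y n u - g u‖ := by
      have := norm_add_le (g u) (y n u - g u)
      rwa [add_sub_cancel] at this
    linarith [h0 n u, hle n]
  have b1 : ∀ n u, ‖deriv (y n) u‖ ≤ ‖deriv g u‖ + 1 := by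
    intro n u
    have h2 : ‖deriv (y n) u‖ ≤ ‖deriv g u‖ + ‖deriv (y n) u - deriv g u‖ := by
      have := norm_add_le (deriv g u) (deriv (y n) u - deriv g u)
      rwa [add_sub_cancel] at this
    linarith [h1 n u, hle n]
  constructor
  · unfold len
    refine intervalIntegral.tendsto_integral_filter_of_dominated_convergence
      (fun u => ‖deriv g u‖ + 1) ?_ ?_ ?_ ?_
    · exact Eventually.of_forall fun n => ((hy n).continuous_deriv.norm).aestronglyMeasurable
    · refine Eventually.of_forall fun n => Eventually.of_forall fun u _ => ?_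
      rw [norm_norm]; exact b1 n u
    · exact (hg.continuous_deriv.norm.add continuous_const).intervalIntegrable _ _
    · exact Eventually.of_forall fun u _ => (t1 u).norm
  · unfold area
    refine intervalIntegral.tendsto_integral_filter_of_dominated_convergence
      (fun u => (‖g u‖ + 1) * (‖deriv g u‖ + 1)) ?_ ?_ ?_ ?_
    · refine Eventually.of_forall fun n => Continuous.aestronglyMeasurable ?_
      exact (Complex.continuous_im.comp ((Complex.continuous_conj.comp
        (hy n).smooth.continuous).mul (hy n).continuous_deriv)).div_const 2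
    · refine Eventually.of_forall fun n => Eventually.of_forall fun u _ => ?_
      rw [norm_div, Real.norm_eq_abs, Real.norm_eq_abs, abs_of_pos (zero_lt_two : (0 : ℝ) < 2)]
      have h3 : |(conj (y n u) * deriv (y n) u).im| ≤ ‖y n u‖ * ‖deriv (y n) u‖ := by
        refine (Complex.abs_im_le_norm _).trans ?_
        rw [norm_mul, RCLike.norm_conj]
      have h4 : ‖y n u‖ * ‖deriv (y n) u‖ ≤ (‖g u‖ + 1) * (‖deriv g u‖ + 1) :=
        mul_le_mul (b0 n u) (b1 n u) (norm_nonneg _) (by positivity)
      have h5 : 0 ≤ |(conj (y n u) * deriv (y n) u).im| := abs_nonneg _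
      linarith
    · exact ((hg.smooth.continuous.norm.add continuous_const).mul
        (hg.continuous_deriv.norm.add continuous_const)).intervalIntegrable _ _
    · refine Eventually.of_forall fun u _ => ?_
      exact ((Complex.continuous_im.tendsto _).comp
        (((Complex.continuous_conj.tendsto _).comp (t0 u)).mul (t1 u))).div_const 2

/-- the isoperimetric inequality forced by dynamical stability -/
theorem key_ineq {T : EReal} (hT : 0 < T) {Γ : ℝ → ℝ → ℂ} (hΓ : IsCDF T Γ) {g : ℝ → ℂ}
    (hg : IsClosedCurve g) (hconv : ConvergesModSim T Γ g) {t₁ : ℝ} (ht₁ : t₁ ∈ timeSet T) :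
    len g ^ 2 * |area (Γ 0)| ≤ len (Γ t₁) ^ 2 * |area g| := by
  obtain ⟨S, φ, hSφ, hc⟩ := hconv
  have hpos : ∀ n : ℕ, (0 : ℝ) < 1 / ((n : ℝ) + 1) := fun n => by positivity
  have hch : ∀ n : ℕ, ∃ t ∈ timeSet T, t₁ ≤ t ∧
      (∀ u, ‖S t (Γ t (φ t u)) - g u‖ < 1 / ((n : ℝ) + 1)) ∧
      (∀ u, ‖deriv (fun x => S t (Γ t (φ t x))) u - deriv g u‖ < 1 / ((n : ℝ) + 1)) := by
    intro n
    obtain ⟨a, ha, hA⟩ := hc 0 _ (hpos n)
    obtain ⟨b, hb, hB⟩ := hc 1 _ (hpos n)
    have hm : max t₁ (max a b) ∈ timeSet T := by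
      rcases max_choice t₁ (max a b) with h | h <;> rw [h]
      · exact ht₁
      · rcases max_choice a b with h | h <;> rw [h]
        · exact ha
        · exact hb
    refine ⟨max t₁ (max a b), hm, le_max_left _ _, fun u => ?_, fun u => ?_⟩
    · have := hA _ hm ((le_max_left a b).trans (le_max_right _ _)) u
      simpa only [iteratedDeriv_zero] using this
    · have := hB _ hm ((le_max_right a b).trans (le_max_right _ _)) u
      simpa only [iteratedDeriv_one] using this
  choose t ht htt₁ hA hB using hch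
  have hy := fun n => (hΓ.curve (t n) (ht n)).sim_reparam (hSφ (t n) (ht n)).1 (hSφ (t n) (ht n)).2
  obtain ⟨l1, l2⟩ := tendsto_len_area (y := fun n x => S (t n) (Γ (t n) (φ (t n) x)))
    (fun n => (hy n).1) hg hA hB
  refine le_of_tendsto_of_tendsto' ((l1.pow 2).mul_const _) (l2.abs.const_mul _) fun n => ?_
  obtain ⟨r, hr, e1, e2⟩ := (hy n).2
  show len (fun x => S (t n) (Γ (t n) (φ (t n) x))) ^ 2 * |area (Γ 0)| ≤
    len (Γ t₁) ^ 2 * |area (fun x => S (t n) (Γ (t n) (φ (t n) x)))|
  rw [e1, e2, area_const hT hΓ (ht n)]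
  have h1 : len (Γ (t n)) ≤ len (Γ t₁) := antitone_len hT hΓ ht₁ (ht n) (htt₁ n)
  have h2 : 0 < len (Γ (t n)) := (hΓ.curve (t n) (ht n)).len_pos
  have h3 : len (Γ (t n)) ^ 2 ≤ len (Γ t₁) ^ 2 := pow_le_pow_left₀ h2.le h1 2
  calc (r * len (Γ (t n))) ^ 2 * |area (Γ 0)| = len (Γ (t n)) ^ 2 * (r ^ 2 * |area (Γ 0)|) := by ring
    _ ≤ len (Γ t₁) ^ 2 * (r ^ 2 * |area (Γ 0)|) :=
      mul_le_mul_of_nonneg_right h3 (by positivity)

end Pool.Agent.TH623.CD
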