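import Pool.Agent.TH623.CD.Defs

set_option autoImplicit false

open Set Filter MeasureTheory
open scoped Topology ContDiff ComplexConjugate

namespace Pool.Agent.TH623.CD

namespace IsClosedCurve

variable {x : ℝ → ℂ} (hx : IsClosedCurve x)

include hx

theorem contDiff_deriv : ContDiff ℝ ∞ (deriv x) := by
  have := hx.smooth
  exact (contDiff_infty_iff_deriv.1 this).2

theorem differentiable : Differentiable ℝ x := hx.smooth.differentiable (by simp)

theorem speed_pos (u : ℝ) : 0 < ‖deriv x u‖ := norm_pos_iff.2 (hx.immersed u)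

theorem contDiff_speed : ContDiff ℝ ∞ (fun u => ‖deriv x u‖) :=
  hx.contDiff_deriv.norm ℝ hx.immersed

theorem contDiff_ds {F : Type} [NormedAddCommGroup F] [NormedSpace ℝ F] {f : ℝ → F}
    (hf : ContDiff ℝ ∞ f) : ContDiff ℝ ∞ (ds x f) := by
  have h1 : ContDiff ℝ ∞ (fun u => ‖deriv x u‖⁻¹) :=
    hx.contDiff_speed.inv fun u => (hx.speed_pos u).ne'
  exact h1.smul (contDiff_infty_iff_deriv.1 hf).2

theorem contDiff_tau : ContDiff ℝ ∞ (tau x) := hx.contDiff_ds hx.smooth

theorem contDiff_nu : ContDiff ℝ ∞ (nu x) := contDiff_const.mul hx.contDiff_tau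

theorem contDiff_curv : ContDiff ℝ ∞ (curv x) := by
  have h1 : ContDiff ℝ ∞ (fun u => conj (nu x u) * ds x (tau x) u) :=
    (Complex.conjCLE.contDiff.comp hx.contDiff_nu).mul (hx.contDiff_ds hx.contDiff_tau)
  exact Complex.reCLM.contDiff.comp h1

theorem deriv_periodic {F : Type} [NormedAddCommGroup F] [NormedSpace ℝ F] {f : ℝ → F}
    (hf : ∀ u, f (u + 1) = f u) (u : ℝ) : deriv f (u + 1) = deriv f u := by
  rw [← deriv_comp_add_const]
  congr 1
  funext u
  exact hf u

theorem ds_periodic {F : Type} [NormedAddCommGroup F] [NormedSpace ℝ F] {f : ℝ → F}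
    (hf : ∀ u, f (u + 1) = f u) (u : ℝ) : ds x f (u + 1) = ds x f u := by
  unfold ds
  rw [hx.deriv_periodic hf, hx.deriv_periodic hx.periodic]

theorem tau_periodic (u : ℝ) : tau x (u + 1) = tau x u := hx.ds_periodic hx.periodic u

theorem nu_periodic (u : ℝ) : nu x (u + 1) = nu x u := by
  unfold nu; rw [hx.tau_periodic]

theorem curv_periodic (u : ℝ) : curv x (u + 1) = curv x u := by
  unfold curv
  rw [hx.nu_periodic, hx.ds_periodic hx.tau_periodic]

theorem norm_tau (u : ℝ) : ‖tau x u‖ = 1 := by
  unfold tau ds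
  rw [norm_smul, norm_inv, norm_norm, inv_mul_cancel₀ (hx.speed_pos u).ne']

theorem conj_tau_mul (u : ℝ) : conj (tau x u) * tau x u = 1 := by
  rw [mul_comm, Complex.mul_conj, Complex.normSq_eq_norm_sq, hx.norm_tau]
  norm_num

theorem conj_nu_mul (u : ℝ) : conj (nu x u) * nu x u = 1 := by
  unfold nu
  rw [map_mul, Complex.conj_I]
  linear_combination hx.conj_tau_mul u - (conj (tau x u) * tau x u) * Complex.I_mul_I

theorem deriv_eq (u : ℝ) : deriv x u = (‖deriv x u‖ : ℂ) * tau x u := by
  unfold tau ds
  rw [Complex.real_smul]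
  have : (‖deriv x u‖ : ℂ) ≠ 0 := by exact_mod_cast (hx.speed_pos u).ne'
  push_cast
  field_simp

theorem deriv_of_ds {F : Type} [NormedAddCommGroup F] [NormedSpace ℝ F] (f : ℝ → F) (u : ℝ) :
    deriv f u = ‖deriv x u‖ • ds x f u := by
  unfold ds
  rw [smul_smul, mul_inv_cancel₀ (hx.speed_pos u).ne', one_smul]

/-- `∂_s τ = k ν` -/
theorem ds_tau (u : ℝ) : ds x (tau x) u = (curv x u : ℂ) * nu x u := by
  -- the tangential component vanishes
  have h1 : HasDerivAt (tau x) (deriv (tau x) u) u :=
    (hx.contDiff_tau.differentiable (by simp) u).hasDerivAt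
  have h2 : HasDerivAt (fun u => conj (tau x u)) (conj (deriv (tau x) u)) u := by
    have := (Complex.conjCLE : ℂ ≃L[ℝ] ℂ).hasFDerivAt.comp_hasDerivAt u h1
    simpa using! this
  have h3 := h2.mul h1
  have h4 : (fun u => conj (tau x u) * tau x u) = fun _ => (1 : ℂ) := by
    funext u; exact hx.conj_tau_mul u
  have h5 : HasDerivAt (fun u => conj (tau x u) * tau x u) 0 u := by
    rw [h4]; exact hasDerivAt_const u _
  have h6 : conj (deriv (tau x) u) * tau x u + conj (tau x u) * deriv (tau x) u = 0 :=
    h3.unique h5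
  have h7 : (conj (tau x u) * deriv (tau x) u).re = 0 := by
    have h8 := congrArg Complex.re h6
    have h9 : (conj (deriv (tau x) u) * tau x u).re = (conj (tau x u) * deriv (tau x) u).re := by
      simp [Complex.mul_re]; ring
    rw [Complex.add_re, h9, Complex.zero_re] at h8
    linarith
  have h8 : (conj (nu x u) * ds x (tau x) u).im = 0 := by
    have : conj (nu x u) * ds x (tau x) u =
        -Complex.I * ((‖deriv x u‖⁻¹ : ℝ) : ℂ) * (conj (tau x u) * deriv (tau x) u) := by
      unfold nu ds
      rw [map_mul, Complex.conj_I, Complex.real_smul]; ring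
    rw [this, mul_assoc, neg_mul, Complex.neg_im, Complex.I_mul_im, Complex.re_ofReal_mul, h7]
    simp
  have h9 : conj (nu x u) * ds x (tau x) u = (curv x u : ℂ) := by
    apply Complex.ext
    · rfl
    · rw [h8, Complex.ofReal_im]
  rw [← h9]
  linear_combination (-ds x (tau x) u) * hx.conj_nu_mul u

theorem deriv_tau (u : ℝ) :
    deriv (tau x) u = (‖deriv x u‖ : ℂ) * ((curv x u : ℂ) * nu x u) := by
  rw [hx.deriv_of_ds (tau x) u, hx.ds_tau, Complex.real_smul]

end IsClosedCurve

/-- the length -/
noncomputable def len (x : ℝ → ℂ) : ℝ := ∫ u in (0 : ℝ)..1, ‖deriv x u‖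

/-- the signed area -/
noncomputable def area (x : ℝ → ℂ) : ℝ := ∫ u in (0 : ℝ)..1, (conj (x u) * deriv x u).im / 2

theorem integral_deriv_periodic {f : ℝ → ℝ} (hf : ContDiff ℝ ∞ f) (hp : ∀ u, f (u + 1) = f u) :
    ∫ u in (0 : ℝ)..1, deriv f u = 0 := by
  rw [intervalIntegral.integral_deriv_eq_sub]
  · have := hp 0
    rw [zero_add] at this
    rw [this, sub_self]
  · intro u _; exact hf.differentiable (by simp) u
  · exact ((contDiff_infty_iff_deriv.1 hf).2.continuous).intervalIntegrable _ _

/-- normal velocity of the curve diffusion flow -/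
noncomputable def vel (x : ℝ → ℂ) (u : ℝ) : ℂ := -((ds x (ds x (curv x)) u : ℝ) : ℂ) * nu x u

namespace IsClosedCurve

variable {x : ℝ → ℂ} (hx : IsClosedCurve x)

include hx

theorem contDiff_vel : ContDiff ℝ ∞ (vel x) := by
  have h1 : ContDiff ℝ ∞ (fun u => ((ds x (ds x (curv x)) u : ℝ) : ℂ)) :=
    Complex.ofRealCLM.contDiff.comp (hx.contDiff_ds (hx.contDiff_ds hx.contDiff_curv))
  exact h1.neg.mul hx.contDiff_nu

theorem vel_periodic (u : ℝ) : vel x (u + 1) = vel x u := by
  unfold vel
  rw [hx.nu_periodic, hx.ds_periodic (hx.ds_periodic hx.curv_periodic)]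

/-- first variation of length in the direction of the velocity -/
theorem len_variation :
    ∫ u in (0 : ℝ)..1, (conj (tau x u) * deriv (vel x) u).re =
      -∫ u in (0 : ℝ)..1, ‖deriv x u‖⁻¹ * (deriv (curv x) u) ^ 2 := by
  have hv := hx.contDiff_vel
  have hτ := hx.contDiff_tau
  have hcτ : ContDiff ℝ ∞ (fun u => conj (tau x u)) := Complex.conjCLE.contDiff.comp hτ
  have hk := hx.contDiff_curv
  -- integration by parts
  have h1 : ContDiff ℝ ∞ (fun u => (conj (tau x u) * vel x u).re) :=
    Complex.reCLM.contDiff.comp (hcτ.mul hv)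
  have h1p : ∀ u, (conj (tau x (u + 1)) * vel x (u + 1)).re = (conj (tau x u) * vel x u).re := by
    intro u; rw [hx.tau_periodic, hx.vel_periodic]
  have h2 : ContDiff ℝ ∞ (fun u => curv x u * ds x (curv x) u) := hk.mul (hx.contDiff_ds hk)
  have h2p : ∀ u, curv x (u + 1) * ds x (curv x) (u + 1) = curv x u * ds x (curv x) u := by
    intro u; rw [hx.curv_periodic, hx.ds_periodic hx.curv_periodic]
  have e1 : ∀ u, deriv (fun u => (conj (tau x u) * vel x u).re) u =
      (conj (deriv (tau x) u) * vel x u).re + (conj (tau x u) * deriv (vel x) u).re := by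
    intro u
    have a1 : HasDerivAt (tau x) (deriv (tau x) u) u :=
      (hτ.differentiable (by simp) u).hasDerivAt
    have a2 : HasDerivAt (fun u => conj (tau x u)) (conj (deriv (tau x) u)) u := by
      have := (Complex.conjCLE : ℂ ≃L[ℝ] ℂ).hasFDerivAt.comp_hasDerivAt u a1
      simpa using! this
    have a3 : HasDerivAt (vel x) (deriv (vel x) u) u := (hv.differentiable (by simp) u).hasDerivAt
    have a4 := Complex.reCLM.hasFDerivAt.comp_hasDerivAt u (a2.mul a3)
    have a5 := a4.deriv
    simp only [Function.comp_def] at a5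
    rw [← Complex.add_re]
    exact a5
  have e2 : ∀ u, deriv (fun u => curv x u * ds x (curv x) u) u =
      deriv (curv x) u * ds x (curv x) u + curv x u * deriv (ds x (curv x)) u := by
    intro u
    exact ((hk.differentiable (by simp) u).hasDerivAt.mul
      ((hx.contDiff_ds hk).differentiable (by simp) u).hasDerivAt).deriv
  have e3 : ∀ u, (conj (deriv (tau x) u) * vel x u).re =
      -(curv x u * deriv (ds x (curv x)) u) := by
    intro u
    rw [hx.deriv_tau, hx.deriv_of_ds (ds x (curv x)) u]
    unfold vel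
    have : conj ((‖deriv x u‖ : ℂ) * ((curv x u : ℂ) * nu x u)) *
        (-((ds x (ds x (curv x)) u : ℝ) : ℂ) * nu x u) =
        ((-(curv x u * (‖deriv x u‖ * ds x (ds x (curv x)) u)) : ℝ) : ℂ) := by
      rw [map_mul, map_mul, Complex.conj_ofReal, Complex.conj_ofReal]
      push_cast
      linear_combination (-(‖deriv x u‖ : ℂ) * (curv x u : ℂ) *
        ((ds x (ds x (curv x)) u : ℝ) : ℂ)) * hx.conj_nu_mul u
    rw [this, Complex.ofReal_re, smul_eq_mul]
  have c1 : Continuous (fun u => (conj (tau x u) * deriv (vel x) u).re) :=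
    Complex.continuous_re.comp (hcτ.continuous.mul (contDiff_infty_iff_deriv.1 hv).2.continuous)
  have c2 : Continuous (fun u => deriv (curv x) u * ds x (curv x) u) :=
    ((contDiff_infty_iff_deriv.1 hk).2.continuous).mul (hx.contDiff_ds hk).continuous
  have c3 : Continuous (fun u => curv x u * deriv (ds x (curv x)) u) :=
    hk.continuous.mul (contDiff_infty_iff_deriv.1 (hx.contDiff_ds hk)).2.continuous
  have i1 := integral_deriv_periodic h1 h1p
  have i2 := integral_deriv_periodic h2 h2p
  simp only [e1, e3] at i1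
  simp only [e2] at i2
  have c3n : Continuous (fun u => -(curv x u * deriv (ds x (curv x)) u)) := c3.neg
  rw [intervalIntegral.integral_add (c3n.intervalIntegrable _ _) (c1.intervalIntegrable _ _),
    intervalIntegral.integral_neg] at i1
  rw [intervalIntegral.integral_add (c2.intervalIntegrable _ _) (c3.intervalIntegrable _ _)] at i2
  have e4 : ∀ u, deriv (curv x) u * ds x (curv x) u =
      ‖deriv x u‖⁻¹ * (deriv (curv x) u) ^ 2 := by
    intro u; unfold ds; rw [smul_eq_mul]; ring
  simp only [e4] at i2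
  linarith

/-- first variation of area in the direction of the velocity -/
theorem area_variation :
    ∫ u in (0 : ℝ)..1, ((conj (vel x u) * deriv x u).im / 2 +
      (conj (x u) * deriv (vel x) u).im / 2) = 0 := by
  have hv := hx.contDiff_vel
  have hxs := hx.smooth
  have hcx : ContDiff ℝ ∞ (fun u => conj (x u)) := Complex.conjCLE.contDiff.comp hxs
  have hk := hx.contDiff_curv
  have h1 : ContDiff ℝ ∞ (fun u => (conj (x u) * vel x u).im / 2) :=
    (Complex.imCLM.contDiff.comp (hcx.mul hv)).div_const 2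
  have h1p : ∀ u, (conj (x (u + 1)) * vel x (u + 1)).im / 2 = (conj (x u) * vel x u).im / 2 := by
    intro u; rw [hx.periodic, hx.vel_periodic]
  have h2 := hx.contDiff_ds hk
  have e1 : ∀ u, deriv (fun u => (conj (x u) * vel x u).im / 2) u =
      (conj (deriv x u) * vel x u).im / 2 + (conj (x u) * deriv (vel x) u).im / 2 := by
    intro u
    have a1 : HasDerivAt x (deriv x u) u := (hx.differentiable u).hasDerivAt
    have a2 : HasDerivAt (fun u => conj (x u)) (conj (deriv x u)) u := by
      have := (Complex.conjCLE : ℂ ≃L[ℝ] ℂ).hasFDerivAt.comp_hasDerivAt u a1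
      simpa using! this
    have a3 : HasDerivAt (vel x) (deriv (vel x) u) u := (hv.differentiable (by simp) u).hasDerivAt
    have a4 := (Complex.imCLM.hasFDerivAt.comp_hasDerivAt u (a2.mul a3)).div_const 2
    have a5 := a4.deriv
    simp only [Function.comp_def] at a5
    rw [← add_div, ← Complex.add_im]
    exact a5
  have e2 : ∀ u, (conj (vel x u) * deriv x u).im / 2 + (conj (x u) * deriv (vel x) u).im / 2 =
      deriv (fun u => (conj (x u) * vel x u).im / 2) u + deriv (ds x (curv x)) u := by
    intro u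
    rw [e1, hx.deriv_of_ds (ds x (curv x)) u]
    have h3 : conj (vel x u) * deriv x u =
        (((ds x (ds x (curv x)) u * ‖deriv x u‖ : ℝ)) : ℂ) * Complex.I := by
      conv_lhs => rw [hx.deriv_eq]
      unfold vel nu
      rw [map_mul, map_neg, Complex.conj_ofReal, map_mul, Complex.conj_I]
      push_cast
      linear_combination (((ds x (ds x (curv x)) u : ℝ) : ℂ) * (‖deriv x u‖ : ℂ) * Complex.I) *
        hx.conj_tau_mul u
    have h4 : (conj (deriv x u) * vel x u).im = -(conj (vel x u) * deriv x u).im := by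
      simp [Complex.mul_im]; ring
    rw [h4, h3]
    simp only [Complex.mul_im, Complex.ofReal_re, Complex.I_im, Complex.ofReal_im, Complex.I_re,
      smul_eq_mul]
    ring
  simp only [e2]
  rw [intervalIntegral.integral_add
    ((contDiff_infty_iff_deriv.1 h1).2.continuous.intervalIntegrable _ _)
    ((contDiff_infty_iff_deriv.1 h2).2.continuous.intervalIntegrable _ _),
    integral_deriv_periodic h1 h1p,
    integral_deriv_periodic h2 (fun u => hx.ds_periodic hx.curv_periodic u), add_zero]

end IsClosedCurve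

end Pool.Agent.TH623.CD
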