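import Mathlib

/-!
# Dynamically stable curves for the curve diffusion flow: definitions

The plane is `ℂ`; a closed curve is a `1`-periodic map `ℝ → ℂ`.
-/

set_option autoImplicit false

open Set Filter MeasureTheory
open scoped Topology ContDiff ComplexConjugate

namespace Pool.Agent.TH623.CD

/-- a smooth closed immersed curve in the plane, parametrised by `ℝ / ℤ` -/
structure IsClosedCurve (γ : ℝ → ℂ) : Prop where
  smooth : ContDiff ℝ ∞ γ
  periodic : ∀ u, γ (u + 1) = γ u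
  immersed : ∀ u, deriv γ u ≠ 0

/-- derivative with respect to the arc length of the curve `γ` -/
noncomputable def ds {F : Type} [NormedAddCommGroup F] [NormedSpace ℝ F] (γ : ℝ → ℂ) (f : ℝ → F)
    (u : ℝ) : F := ‖deriv γ u‖⁻¹ • deriv f u

/-- the unit tangent `τ = ∂_s γ` -/
noncomputable def tau (γ : ℝ → ℂ) (u : ℝ) : ℂ := ds γ γ u

/-- the unit normal `ν = i τ` -/
noncomputable def nu (γ : ℝ → ℂ) (u : ℝ) : ℂ := Complex.I * tau γ u

/-- the curvature `k = ⟨∂_s τ, ν⟩`, so that `∂_s τ = k ν` -/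
noncomputable def curv (γ : ℝ → ℂ) (u : ℝ) : ℝ := (conj (nu γ u) * ds γ (tau γ) u).re

/-- the time interval `[0, T)`, `T ≤ ∞` -/
def timeSet (T : EReal) : Set ℝ := {t | 0 ≤ t ∧ (t : EReal) < T}

/-- `γ` is a smooth solution on `[0, T)` of the curve diffusion flow `∂_t γ = - k_ss ν`. -/
structure IsCDF (T : EReal) (γ : ℝ → ℝ → ℂ) : Prop where
  smooth : ContDiffOn ℝ ∞ (fun p : ℝ × ℝ => γ p.1 p.2) (timeSet T ×ˢ univ)
  curve : ∀ t ∈ timeSet T, IsClosedCurve (γ t)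
  flow : ∀ t ∈ timeSet T, ∀ u, HasDerivWithinAt (fun t' => γ t' u)
    (-((ds (γ t) (ds (γ t) (curv (γ t))) u : ℝ) : ℂ) * nu (γ t) u) (timeSet T) t

/-- a similarity transformation of the plane -/
def IsSimilarity (S : ℂ → ℂ) : Prop :=
  ∃ a b : ℂ, a ≠ 0 ∧ ((∀ z, S z = a * z + b) ∨ ∀ z, S z = a * conj z + b)

/-- a reparametrisation: a diffeomorphism of `ℝ / ℤ` (lifted to `ℝ`), which may reverse the
orientation -/
def IsReparam (φ : ℝ → ℝ) : Prop :=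
  ContDiff ℝ ∞ φ ∧ (∀ u, deriv φ u ≠ 0) ∧ ((∀ u, φ (u + 1) = φ u + 1) ∨ ∀ u, φ (u + 1) = φ u - 1)

/-- the solution `γ` on `[0, T)` converges modulo similarity to the curve `γ∞`: there are
similarities `S t` and reparametrisations `φ t` such that `S t ∘ γ(·, t) ∘ φ t` converges to `γ∞`
in `C^∞` as `t → T` -/
def ConvergesModSim (T : EReal) (γ : ℝ → ℝ → ℂ) (γinf : ℝ → ℂ) : Prop :=
  ∃ (S : ℝ → ℂ → ℂ) (φ : ℝ → ℝ → ℝ), (∀ t ∈ timeSet T, IsSimilarity (S t) ∧ IsReparam (φ t)) ∧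
    ∀ j : ℕ, ∀ ε : ℝ, 0 < ε → ∃ t₀ ∈ timeSet T, ∀ t ∈ timeSet T, t₀ ≤ t → ∀ u,
      ‖iteratedDeriv j (fun x => S t (γ t (φ t x))) u - iteratedDeriv j γinf u‖ < ε

/-- `γ` is dynamically stable for the curve diffusion flow: for all closed curves `η` in a
`C^∞`-neighbourhood of `γ` there is a solution with initial curve `η` which converges modulo
similarity to `γ`. -/
def IsDynStable (γ : ℝ → ℂ) : Prop :=
  ∃ (N : ℕ) (ε : ℝ), 0 < ε ∧ ∀ η : ℝ → ℂ, IsClosedCurve η →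
    (∀ j ≤ N, ∀ u, ‖iteratedDeriv j η u - iteratedDeriv j γ u‖ < ε) →
    ∃ (T : EReal) (Γ : ℝ → ℝ → ℂ), 0 < T ∧ IsCDF T Γ ∧ Γ 0 = η ∧ ConvergesModSim T Γ γ

/-- `γ` is a round circle, traversed once -/
def IsCircle (γ : ℝ → ℂ) : Prop :=
  ∃ (c : ℂ) (r : ℝ), 0 < r ∧ range γ = Metric.sphere c r ∧ InjOn γ (Ico 0 1)

end Pool.Agent.TH623.CD
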