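import Pool.Agent.TH623.CD.Curve

set_option autoImplicit false

open Set Filter MeasureTheory
open scoped Topology ContDiff ComplexConjugate

namespace Pool.Agent.TH623.CD

/-- differentiation under the integral sign -/
theorem hasDerivAt_param {O : Set ℝ} (hO : IsOpen O) {H H' : ℝ → ℝ → ℝ}
    (hH : ContinuousOn (fun p : ℝ × ℝ => H p.1 p.2) (O ×ˢ univ))
    (hH' : ContinuousOn (fun p : ℝ × ℝ => H' p.1 p.2) (O ×ˢ univ))
    (hd : ∀ t ∈ O, ∀ u, HasDerivAt (fun s => H s u) (H' t u) t) {t : ℝ} (ht : t ∈ O) :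
    HasDerivAt (fun s => ∫ u in (0 : ℝ)..1, H s u) (∫ u in (0 : ℝ)..1, H' t u) t := by
  obtain ⟨δ, hδ, hδO⟩ := Metric.nhds_basis_closedBall.mem_iff.1 (hO.mem_nhds ht)
  have hcomp : IsCompact (Metric.closedBall t δ ×ˢ Icc (0 : ℝ) 1) :=
    (isCompact_closedBall t δ).prod isCompact_Icc
  obtain ⟨C, hC⟩ := hcomp.exists_bound_of_continuousOn
    (hH'.mono (prod_mono hδO (subset_univ _)))
  have hline : ∀ (F : ℝ → ℝ → ℝ), ContinuousOn (fun p : ℝ × ℝ => F p.1 p.2) (O ×ˢ univ) →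
      ∀ s ∈ O, Continuous (F s) := by
    intro F hF s hs
    rw [← continuousOn_univ]
    exact hF.comp (f := fun u : ℝ => (s, u)) (by fun_prop) fun u _ => ⟨hs, trivial⟩
  refine (intervalIntegral.hasDerivAt_integral_of_dominated_loc_of_deriv_le
    (bound := fun _ => C) (Metric.closedBall_mem_nhds t hδ) ?_ ?_ ?_ ?_ ?_ ?_).2
  · filter_upwards [hO.mem_nhds ht] with s hs
    exact (hline H hH s hs).aestronglyMeasurable
  · exact (hline H hH t ht).intervalIntegrable _ _
  · exact (hline H' hH' t ht).aestronglyMeasurable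
  · refine Eventually.of_forall fun u hu s hs => ?_
    rw [uIoc_of_le zero_le_one] at hu
    exact hC (s, u) ⟨hs, hu.1.le, hu.2⟩
  · exact intervalIntegrable_const
  · exact Eventually.of_forall fun u _ s hs => hd s (hδO hs) u

/-- the open time interval -/
def openTime (T : EReal) : Set ℝ := {t | 0 < t ∧ (t : EReal) < T}

theorem isOpen_openTime (T : EReal) : IsOpen (openTime T) :=
  isOpen_Ioi.inter (isOpen_Iio.preimage continuous_coe_real_ereal)

theorem openTime_subset (T : EReal) : openTime T ⊆ timeSet T := fun _ ht => ⟨ht.1.le, ht.2⟩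

theorem convex_timeSet (T : EReal) : Convex ℝ (timeSet T) := by
  apply Set.OrdConnected.convex
  refine ⟨?_⟩
  rintro a ⟨ha, -⟩ b ⟨-, hb⟩ c ⟨hac, hcb⟩
  exact ⟨ha.trans hac, lt_of_le_of_lt (by exact_mod_cast hcb) hb⟩

theorem zero_mem_timeSet {T : EReal} (hT : 0 < T) : (0 : ℝ) ∈ timeSet T :=
  ⟨le_rfl, by simpa using hT⟩

theorem exists_mem_openTime {T : EReal} (hT : 0 < T) : (openTime T).Nonempty := by
  obtain ⟨t, ht0, htT⟩ := EReal.lt_iff_exists_real_btwn.1 hT
  exact ⟨t, by exact_mod_cast ht0, htT⟩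

theorem interior_timeSet (T : EReal) : interior (timeSet T) ⊆ openTime T := by
  intro t ht
  have h1 := interior_subset ht
  refine ⟨lt_of_le_of_ne h1.1 fun h0 => ?_, h1.2⟩
  rw [mem_interior_iff_mem_nhds, ← h0] at ht
  obtain ⟨δ, hδ, hb⟩ := Metric.mem_nhds_iff.1 ht
  have h2 : (-(δ / 2)) ∈ timeSet T := hb (by
    rw [Metric.mem_ball, dist_zero_right, norm_neg, Real.norm_eq_abs, abs_of_pos (by linarith)]
    linarith)
  have := h2.1
  linarith

theorem uniqueDiff {T : EReal} (hT : 0 < T) :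
    UniqueDiffOn ℝ (timeSet T ×ˢ (univ : Set ℝ)) := by
  refine UniqueDiffOn.prod ?_ uniqueDiffOn_univ
  refine uniqueDiffOn_convex (convex_timeSet T) ?_
  obtain ⟨t, ht⟩ := exists_mem_openTime hT
  exact ⟨t, mem_interior.2 ⟨openTime T, openTime_subset T, isOpen_openTime T, ht⟩⟩

section

variable {T : EReal} (hT : 0 < T) {Γ : ℝ → ℝ → ℂ} (hΓ : IsCDF T Γ)

include hT hΓ

omit hT in
theorem deriv_u {t : ℝ} (ht : t ∈ timeSet T) (u : ℝ) :
    fderivWithin ℝ (fun p : ℝ × ℝ => Γ p.1 p.2) (timeSet T ×ˢ univ) (t, u) (0, 1) =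
      deriv (Γ t) u := by
  have h1 : HasFDerivWithinAt (fun p : ℝ × ℝ => Γ p.1 p.2)
      (fderivWithin ℝ (fun p : ℝ × ℝ => Γ p.1 p.2) (timeSet T ×ˢ univ) (t, u))
      (timeSet T ×ˢ univ) (t, u) :=
    (hΓ.smooth.differentiableOn (by simp) (t, u) ⟨ht, trivial⟩).hasFDerivWithinAt
  have h2 : HasDerivWithinAt (fun u : ℝ => (t, u)) ((0 : ℝ), (1 : ℝ)) univ u :=
    ((hasDerivAt_const u t).prodMk (hasDerivAt_id u)).hasDerivWithinAt
  have h3 := h1.comp_hasDerivWithinAt u h2 (fun u _ => ⟨ht, trivial⟩)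
  rw [hasDerivWithinAt_univ] at h3
  exact h3.deriv.symm

theorem continuousOn_deriv_u :
    ContinuousOn (fun p : ℝ × ℝ => deriv (Γ p.1) p.2) (timeSet T ×ˢ univ) := by
  have h1 : ContinuousOn (fun p => fderivWithin ℝ (fun p : ℝ × ℝ => Γ p.1 p.2)
      (timeSet T ×ˢ univ) p (0, 1)) (timeSet T ×ˢ univ) :=
    (hΓ.smooth.continuousOn_fderivWithin (uniqueDiff hT) (by simp)).clm_apply continuousOn_const
  refine h1.congr ?_
  rintro ⟨t, u⟩ ⟨ht, -⟩
  exact (deriv_u hΓ ht u).symm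

theorem continuousOn_len : ContinuousOn (fun t => len (Γ t)) (timeSet T) := by
  rw [continuousOn_iff_continuous_domRestrict]
  have h1 : Continuous (fun q : timeSet T × ℝ => ‖deriv (Γ q.1) q.2‖) := by
    have h2 := (continuousOn_deriv_u hT hΓ).norm
    exact h2.comp_continuous (f := fun q : timeSet T × ℝ => ((q.1 : ℝ), q.2)) (by fun_prop)
      (fun q => ⟨q.1.2, trivial⟩)
  exact intervalIntegral.continuous_parametric_intervalIntegral_of_continuous'
    (f := fun (t : timeSet T) (u : ℝ) => ‖deriv (Γ t) u‖) h1 0 1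

theorem continuousOn_area : ContinuousOn (fun t => area (Γ t)) (timeSet T) := by
  rw [continuousOn_iff_continuous_domRestrict]
  have h1 : Continuous (fun q : timeSet T × ℝ =>
      (conj (Γ q.1 q.2) * deriv (Γ q.1) q.2).im / 2) := by
    have h2 := (((Complex.continuous_conj.comp_continuousOn hΓ.smooth.continuousOn).mul
      (continuousOn_deriv_u hT hΓ)))
    have h3 := (Complex.continuous_im.comp_continuousOn h2).div_const 2
    exact h3.comp_continuous (f := fun q : timeSet T × ℝ => ((q.1 : ℝ), q.2)) (by fun_prop)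
      (fun q => ⟨q.1.2, trivial⟩)
  exact intervalIntegral.continuous_parametric_intervalIntegral_of_continuous'
    (f := fun (t : timeSet T) (u : ℝ) => (conj (Γ t u) * deriv (Γ t) u).im / 2) h1 0 1

omit hT in
theorem smooth_open : ContDiffOn ℝ ∞ (fun p : ℝ × ℝ => Γ p.1 p.2) (openTime T ×ˢ univ) :=
  hΓ.smooth.mono (prod_mono (openTime_subset T) Subset.rfl)

omit hT in
/-- the mixed derivatives in the interior -/
theorem mixed {t : ℝ} (ht : t ∈ openTime T) (u : ℝ) :
    HasDerivAt (fun s => Γ s u) (vel (Γ t) u) t ∧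
    HasDerivAt (fun s => deriv (Γ s) u) (deriv (vel (Γ t)) u) t := by
  have hOo : IsOpen (openTime T ×ˢ (univ : Set ℝ)) := (isOpen_openTime T).prod isOpen_univ
  set G : ℝ × ℝ → ℂ := fun p => Γ p.1 p.2 with hG
  have hGs : ContDiffOn ℝ ∞ G (openTime T ×ˢ univ) := smooth_open hΓ
  have hD : ∀ p ∈ openTime T ×ˢ (univ : Set ℝ), HasFDerivAt G (fderiv ℝ G p) p := fun p hp =>
    ((hGs.differentiableOn (by simp) p hp).differentiableAt (hOo.mem_nhds hp)).hasFDerivAt
  have hD' : ContDiffOn ℝ ∞ (fderiv ℝ G) (openTime T ×ˢ univ) :=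
    hGs.fderiv_of_isOpen hOo (by simp)
  have hDD : HasFDerivAt (fderiv ℝ G) (fderiv ℝ (fderiv ℝ G) (t, u)) (t, u) :=
    ((hD'.differentiableOn (by simp) (t, u) ⟨ht, trivial⟩).differentiableAt
      (hOo.mem_nhds ⟨ht, trivial⟩)).hasFDerivAt
  have ha : ∀ (t u : ℝ), HasDerivAt (fun s : ℝ => (s, u)) ((1 : ℝ), (0 : ℝ)) t := fun t u =>
    (hasDerivAt_id t).prodMk (hasDerivAt_const t u)
  have hb : ∀ (t u : ℝ), HasDerivAt (fun v : ℝ => (t, v)) ((0 : ℝ), (1 : ℝ)) u := fun t u =>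
    (hasDerivAt_const u t).prodMk (hasDerivAt_id u)
  -- first derivatives
  have h1 : ∀ v, fderiv ℝ G (t, v) (1, 0) = vel (Γ t) v := by
    intro v
    have h2 : HasDerivAt (fun s => Γ s v) (fderiv ℝ G (t, v) (1, 0)) t :=
      HasFDerivAt.comp_hasDerivAt (f := fun s : ℝ => (s, v)) t (hD (t, v) ⟨ht, trivial⟩) (ha t v)
    have h3 : HasDerivAt (fun s => Γ s v) (vel (Γ t) v) t :=
      (hΓ.flow t (openTime_subset T ht) v).hasDerivAt
        (mem_of_superset ((isOpen_openTime T).mem_nhds ht) (openTime_subset T))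
    exact h2.unique h3
  have h2 : ∀ s ∈ openTime T, ∀ v, fderiv ℝ G (s, v) (0, 1) = deriv (Γ s) v := by
    intro s hs v
    have h3 : HasDerivAt (Γ s) (fderiv ℝ G (s, v) (0, 1)) v :=
      HasFDerivAt.comp_hasDerivAt (f := fun w : ℝ => (s, w)) v (hD (s, v) ⟨hs, trivial⟩) (hb s v)
    exact h3.deriv.symm
  refine ⟨(hΓ.flow t (openTime_subset T ht) u).hasDerivAt
    (mem_of_superset ((isOpen_openTime T).mem_nhds ht) (openTime_subset T)), ?_⟩
  -- second derivatives
  have h3 : HasDerivAt (fun s => fderiv ℝ G (s, u) (0, 1))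
      (fderiv ℝ (fderiv ℝ G) (t, u) (1, 0) (0, 1)) t := by
    have h4 := hDD.comp_hasDerivAt t (ha t u)
    exact ((ContinuousLinearMap.apply ℝ ℂ ((0 : ℝ), (1 : ℝ))).hasFDerivAt).comp_hasDerivAt t h4
  have h4 : HasDerivAt (fun v => fderiv ℝ G (t, v) (1, 0))
      (fderiv ℝ (fderiv ℝ G) (t, u) (0, 1) (1, 0)) u := by
    have h5 := hDD.comp_hasDerivAt u (hb t u)
    exact ((ContinuousLinearMap.apply ℝ ℂ ((1 : ℝ), (0 : ℝ))).hasFDerivAt).comp_hasDerivAt u h5
  have h5 : fderiv ℝ (fderiv ℝ G) (t, u) (1, 0) (0, 1) =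
      fderiv ℝ (fderiv ℝ G) (t, u) (0, 1) (1, 0) := by
    refine second_derivative_symmetric_of_eventually (f := G) (f' := fderiv ℝ G) ?_ hDD _ _
    filter_upwards [hOo.mem_nhds (show (t, u) ∈ openTime T ×ˢ (univ : Set ℝ) from ⟨ht, trivial⟩)]
      with p hp using hD p hp
  have h6 : (fun v => fderiv ℝ G (t, v) (1, 0)) = vel (Γ t) := funext h1
  rw [h6] at h4
  have h7 : (fun s => fderiv ℝ G (s, u) (0, 1)) =ᶠ[𝓝 t] fun s => deriv (Γ s) u := by
    filter_upwards [(isOpen_openTime T).mem_nhds ht] with s hs using h2 s hs u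
  rw [h4.deriv, ← h5]
  exact h3.congr_of_eventuallyEq h7.symm

omit hT in
theorem continuousOn_open :
    ContinuousOn (fun p : ℝ × ℝ => vel (Γ p.1) p.2) (openTime T ×ˢ univ) ∧
    ContinuousOn (fun p : ℝ × ℝ => deriv (Γ p.1) p.2) (openTime T ×ˢ univ) ∧
    ContinuousOn (fun p : ℝ × ℝ => deriv (vel (Γ p.1)) p.2) (openTime T ×ˢ univ) := by
  have hOo : IsOpen (openTime T ×ˢ (univ : Set ℝ)) := (isOpen_openTime T).prod isOpen_univ
  set G : ℝ × ℝ → ℂ := fun p => Γ p.1 p.2 with hG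
  have hGs : ContDiffOn ℝ ∞ G (openTime T ×ˢ univ) := smooth_open hΓ
  have hD : ∀ p ∈ openTime T ×ˢ (univ : Set ℝ), HasFDerivAt G (fderiv ℝ G p) p := fun p hp =>
    ((hGs.differentiableOn (by simp) p hp).differentiableAt (hOo.mem_nhds hp)).hasFDerivAt
  have hD' : ContDiffOn ℝ ∞ (fderiv ℝ G) (openTime T ×ˢ univ) :=
    hGs.fderiv_of_isOpen hOo (by simp)
  have hD'' : ContDiffOn ℝ ∞ (fderiv ℝ (fderiv ℝ G)) (openTime T ×ˢ univ) :=
    hD'.fderiv_of_isOpen hOo (by simp)
  have ha : ∀ (t u : ℝ), HasDerivAt (fun s : ℝ => (s, u)) ((1 : ℝ), (0 : ℝ)) t := fun t u =>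
    (hasDerivAt_id t).prodMk (hasDerivAt_const t u)
  have hb : ∀ (t u : ℝ), HasDerivAt (fun v : ℝ => (t, v)) ((0 : ℝ), (1 : ℝ)) u := fun t u =>
    (hasDerivAt_const u t).prodMk (hasDerivAt_id u)
  have h1 : ∀ t ∈ openTime T, ∀ v, fderiv ℝ G (t, v) (1, 0) = vel (Γ t) v := by
    intro t ht v
    have h2 : HasDerivAt (fun s => Γ s v) (fderiv ℝ G (t, v) (1, 0)) t :=
      HasFDerivAt.comp_hasDerivAt (f := fun s : ℝ => (s, v)) t (hD (t, v) ⟨ht, trivial⟩) (ha t v)
    exact h2.unique (mixed hΓ ht v).1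
  have h2 : ∀ s ∈ openTime T, ∀ v, fderiv ℝ G (s, v) (0, 1) = deriv (Γ s) v := by
    intro s hs v
    have h3 : HasDerivAt (Γ s) (fderiv ℝ G (s, v) (0, 1)) v :=
      HasFDerivAt.comp_hasDerivAt (f := fun w : ℝ => (s, w)) v (hD (s, v) ⟨hs, trivial⟩) (hb s v)
    exact h3.deriv.symm
  refine ⟨?_, ?_, ?_⟩
  · refine (hD'.continuousOn.clm_apply continuousOn_const (g := fun _ => ((1 : ℝ), (0 : ℝ)))).congr ?_
    rintro ⟨t, u⟩ ⟨ht, -⟩
    exact (h1 t ht u).symm
  · refine (hD'.continuousOn.clm_apply continuousOn_const (g := fun _ => ((0 : ℝ), (1 : ℝ)))).congr ?_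
    rintro ⟨t, u⟩ ⟨ht, -⟩
    exact (h2 t ht u).symm
  · have h3 : ContinuousOn (fun p => fderiv ℝ (fderiv ℝ G) p (0, 1) (1, 0))
        (openTime T ×ˢ univ) :=
      (hD''.continuousOn.clm_apply continuousOn_const).clm_apply continuousOn_const
    refine h3.congr ?_
    rintro ⟨t, u⟩ ⟨ht, -⟩
    have hDD : HasFDerivAt (fderiv ℝ G) (fderiv ℝ (fderiv ℝ G) (t, u)) (t, u) :=
      ((hD'.differentiableOn (by simp) (t, u) ⟨ht, trivial⟩).differentiableAt
        (hOo.mem_nhds ⟨ht, trivial⟩)).hasFDerivAt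
    have h4 : HasDerivAt (fun v => fderiv ℝ G (t, v) (1, 0))
        (fderiv ℝ (fderiv ℝ G) (t, u) (0, 1) (1, 0)) u := by
      have h5 := hDD.comp_hasDerivAt u (hb t u)
      exact ((ContinuousLinearMap.apply ℝ ℂ ((1 : ℝ), (0 : ℝ))).hasFDerivAt).comp_hasDerivAt u h5
    have h6 : (fun v => fderiv ℝ G (t, v) (1, 0)) = vel (Γ t) := funext (h1 t ht)
    rw [h6] at h4
    exact h4.deriv

omit hT in
theorem len_deriv {t : ℝ} (ht : t ∈ openTime T) :
    HasDerivAt (fun s => len (Γ s))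
      (-∫ u in (0 : ℝ)..1, ‖deriv (Γ t) u‖⁻¹ * (deriv (curv (Γ t)) u) ^ 2) t := by
  obtain ⟨c1, c2, c3⟩ := continuousOn_open hΓ
  have hcurve : ∀ s ∈ openTime T, IsClosedCurve (Γ s) := fun s hs =>
    hΓ.curve s (openTime_subset T hs)
  rw [← (hcurve t ht).len_variation]
  refine hasDerivAt_param (isOpen_openTime T)
    (H := fun s u => ‖deriv (Γ s) u‖)
    (H' := fun s u => (conj (tau (Γ s) u) * deriv (vel (Γ s)) u).re) c2.norm ?_ ?_ ht
  · have h1 : ContinuousOn (fun p : ℝ × ℝ => tau (Γ p.1) p.2) (openTime T ×ˢ univ) := by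
      have h2 : ContinuousOn (fun p : ℝ × ℝ => ‖deriv (Γ p.1) p.2‖⁻¹) (openTime T ×ˢ univ) := by
        refine ContinuousOn.inv₀ c2.norm ?_
        rintro ⟨s, u⟩ ⟨hs, -⟩
        exact ((hcurve s hs).speed_pos u).ne'
      exact h2.smul c2
    exact Complex.continuous_re.comp_continuousOn
      ((Complex.continuous_conj.comp_continuousOn h1).mul c3)
  · intro s hs u
    have h1 := (mixed hΓ hs u).2
    have h2 := h1.norm_sq
    have h3 : (fun s => ‖deriv (Γ s) u‖) =ᶠ[𝓝 s] fun s => Real.sqrt (‖deriv (Γ s) u‖ ^ 2) := by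
      exact Eventually.of_forall fun s => (Real.sqrt_sq (norm_nonneg _)).symm
    have h4 := (h2.sqrt (pow_ne_zero 2 ((hcurve s hs).speed_pos u).ne')).congr_of_eventuallyEq h3
    refine h4.congr_deriv ?_
    rw [Real.sqrt_sq (norm_nonneg _)]
    unfold tau ds
    have h5 : inner ℝ (deriv (Γ s) u) (deriv (vel (Γ s)) u) =
        (conj (deriv (Γ s) u) * deriv (vel (Γ s)) u).re := by
      rw [Complex.inner, mul_comm]
    rw [h5, Complex.real_smul, map_mul, Complex.conj_ofReal, mul_assoc, Complex.re_ofReal_mul]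
    have := ((hcurve s hs).speed_pos u).ne'
    field_simp

omit hT in
theorem area_deriv {t : ℝ} (ht : t ∈ openTime T) : HasDerivAt (fun s => area (Γ s)) 0 t := by
  obtain ⟨c1, c2, c3⟩ := continuousOn_open hΓ
  have hcurve : ∀ s ∈ openTime T, IsClosedCurve (Γ s) := fun s hs =>
    hΓ.curve s (openTime_subset T hs)
  rw [← (hcurve t ht).area_variation]
  have c0 : ContinuousOn (fun p : ℝ × ℝ => Γ p.1 p.2) (openTime T ×ˢ univ) :=
    (smooth_open hΓ).continuousOn
  refine hasDerivAt_param (isOpen_openTime T)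
    (H := fun s u => (conj (Γ s u) * deriv (Γ s) u).im / 2)
    (H' := fun s u => (conj (vel (Γ s) u) * deriv (Γ s) u).im / 2 +
      (conj (Γ s u) * deriv (vel (Γ s)) u).im / 2) ?_ ?_ ?_ ht
  · exact (Complex.continuous_im.comp_continuousOn
      ((Complex.continuous_conj.comp_continuousOn c0).mul c2)).div_const 2
  · exact ((Complex.continuous_im.comp_continuousOn
      ((Complex.continuous_conj.comp_continuousOn c1).mul c2)).div_const 2).add
      ((Complex.continuous_im.comp_continuousOn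
      ((Complex.continuous_conj.comp_continuousOn c0).mul c3)).div_const 2)
  · intro s hs u
    obtain ⟨h1, h2⟩ := mixed hΓ hs u
    have h3 : HasDerivAt (fun s => conj (Γ s u)) (conj (vel (Γ s) u)) s := by
      have := (Complex.conjCLE : ℂ ≃L[ℝ] ℂ).hasFDerivAt.comp_hasDerivAt s h1
      simpa using! this
    have h4 := (Complex.imCLM.hasFDerivAt.comp_hasDerivAt s (h3.mul h2)).div_const 2
    rw [← add_div, ← Complex.add_im]
    exact h4

/-- the length is nonincreasing -/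
theorem antitone_len : AntitoneOn (fun t => len (Γ t)) (timeSet T) := by
  refine antitoneOn_of_deriv_nonpos (convex_timeSet T) (continuousOn_len hT hΓ) ?_ ?_
  · intro t ht
    exact (len_deriv hΓ (interior_timeSet T ht)).differentiableAt.differentiableWithinAt
  · intro t ht
    rw [(len_deriv hΓ (interior_timeSet T ht)).deriv, neg_nonpos]
    exact intervalIntegral.integral_nonneg zero_le_one fun u _ =>
      mul_nonneg (inv_nonneg.2 (norm_nonneg _)) (sq_nonneg _)

/-- the signed area is constant -/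
theorem area_const {t : ℝ} (ht : t ∈ timeSet T) : area (Γ t) = area (Γ 0) := by
  have h1 : AntitoneOn (fun t => area (Γ t)) (timeSet T) := by
    refine antitoneOn_of_deriv_nonpos (convex_timeSet T) (continuousOn_area hT hΓ) ?_ ?_
    · intro t ht
      exact (area_deriv hΓ (interior_timeSet T ht)).differentiableAt.differentiableWithinAt
    · intro t ht
      rw [(area_deriv hΓ (interior_timeSet T ht)).deriv]
  have h2 : MonotoneOn (fun t => area (Γ t)) (timeSet T) := by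
    refine monotoneOn_of_deriv_nonneg (convex_timeSet T) (continuousOn_area hT hΓ) ?_ ?_
    · intro t ht
      exact (area_deriv hΓ (interior_timeSet T ht)).differentiableAt.differentiableWithinAt
    · intro t ht
      rw [(area_deriv hΓ (interior_timeSet T ht)).deriv]
  have h0 := zero_mem_timeSet hT
  exact le_antisymm (h1 h0 ht ht.1) (h2 h0 ht ht.1)

end

end Pool.Agent.TH623.CD
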