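import Pool.Agent.TH623.CD.Class

set_option autoImplicit false

open Set Filter MeasureTheory
open scoped Topology ContDiff ComplexConjugate

namespace Pool.Agent.TH623.CD

/-- the perturbed `m`-fold circle as a function of the angle -/
noncomputable def hh (m : ℤ) (δ θ : ℝ) : ℂ :=
  ((1 + δ * Real.cos θ : ℝ) : ℂ) * Complex.exp (((m : ℝ) * θ : ℝ) * Complex.I)

noncomputable def hh' (m : ℤ) (δ θ : ℝ) : ℂ :=
  (((-(δ * Real.sin θ) : ℝ) : ℂ) + (((m : ℝ) * (1 + δ * Real.cos θ) : ℝ) : ℂ) * Complex.I) *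
    Complex.exp (((m : ℝ) * θ : ℝ) * Complex.I)

theorem hh_deriv (m : ℤ) (δ θ : ℝ) : HasDerivAt (hh m δ) (hh' m δ θ) θ := by
  have h1 : HasDerivAt (fun θ : ℝ => ((1 + δ * Real.cos θ : ℝ) : ℂ))
      ((-(δ * Real.sin θ) : ℝ) : ℂ) θ := by
    have h2 : HasDerivAt (fun θ : ℝ => 1 + δ * Real.cos θ) (-(δ * Real.sin θ)) θ := by
      have := ((Real.hasDerivAt_cos θ).const_mul δ).const_add 1
      refine this.congr_deriv ?_
      ring
    exact h2.ofReal_comp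
  have h3 : HasDerivAt (fun θ : ℝ => (((m : ℝ) * θ : ℝ) : ℂ)) ((m : ℝ) : ℂ) θ := by
    have h2 : HasDerivAt (fun θ : ℝ => (m : ℝ) * θ) (m : ℝ) θ := by
      simpa using (hasDerivAt_id θ).const_mul (m : ℝ)
    exact h2.ofReal_comp
  have h4 := h1.mul (h3.mul_const Complex.I).cexp
  refine h4.congr_deriv ?_
  unfold hh'
  push_cast
  ring

theorem conj_hh_mul (m : ℤ) (δ θ : ℝ) :
    (conj (hh m δ θ) * hh' m δ θ).im = (m : ℝ) * (1 + δ * Real.cos θ) ^ 2 := by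
  have h1 : conj (Complex.exp (((m : ℝ) * θ : ℝ) * Complex.I)) *
      Complex.exp (((m : ℝ) * θ : ℝ) * Complex.I) = 1 := by
    rw [mul_comm, Complex.mul_conj, Complex.normSq_eq_norm_sq, Complex.norm_exp_ofReal_mul_I]
    norm_num
  have h2 : conj (hh m δ θ) * hh' m δ θ =
      ((-(δ * Real.sin θ) * (1 + δ * Real.cos θ) : ℝ) : ℂ) +
        (((m : ℝ) * (1 + δ * Real.cos θ) ^ 2 : ℝ) : ℂ) * Complex.I := by
    unfold hh hh'
    rw [map_mul, Complex.conj_ofReal]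
    push_cast at h1 ⊢
    linear_combination ((1 + δ * Complex.cos θ) * (-(δ * Complex.sin θ) +
      (m : ℂ) * (1 + δ * Complex.cos θ) * Complex.I)) * h1
  rw [h2, Complex.add_im, Complex.ofReal_im, Complex.im_ofReal_mul, Complex.I_im]
  ring

theorem norm_hh'_sq (m : ℤ) (δ θ : ℝ) :
    ‖hh' m δ θ‖ ^ 2 = (δ * Real.sin θ) ^ 2 + ((m : ℝ) * (1 + δ * Real.cos θ)) ^ 2 := by
  unfold hh'
  rw [norm_mul, Complex.norm_exp_ofReal_mul_I, mul_one, ← Complex.normSq_eq_norm_sq,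
    Complex.normSq_add_mul_I]
  ring

section

variable {ψ : ℝ → ℝ} (hψ : ContDiff ℝ ∞ ψ) (hpos : ∀ u, 0 < deriv ψ u)
  (hp : ∀ u, ψ (u + 1) = ψ u + 2 * Real.pi)

include hψ in
theorem H_deriv (m : ℤ) (δ u : ℝ) :
    deriv (fun u => hh m δ (ψ u)) u = ((deriv ψ u : ℝ) : ℂ) * hh' m δ (ψ u) := by
  have h1 : HasDerivAt ψ (deriv ψ u) u := (hψ.differentiable (by simp) u).hasDerivAt
  have h3 := ((hh_deriv m δ (ψ u)).scomp u h1).deriv
  rw [Complex.real_smul] at h3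
  exact h3

include hψ in
theorem H_smooth (m : ℤ) (δ : ℝ) : ContDiff ℝ ∞ (fun u => hh m δ (ψ u)) := by
  have h1 : ContDiff ℝ ∞ (fun u : ℝ => ((1 + δ * Real.cos (ψ u) : ℝ) : ℂ)) :=
    Complex.ofRealCLM.contDiff.comp (contDiff_const.add
      (contDiff_const.mul (Real.contDiff_cos.comp hψ)))
  have h2 : ContDiff ℝ ∞ (fun u : ℝ => (((m : ℝ) * ψ u : ℝ) : ℂ)) :=
    Complex.ofRealCLM.contDiff.comp (contDiff_const.mul hψ)
  exact h1.mul (h2.mul contDiff_const).cexp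

include hp in
theorem exp_per (m : ℤ) (u : ℝ) : Complex.exp (((m : ℝ) * ψ (u + 1) : ℝ) * Complex.I) =
    Complex.exp (((m : ℝ) * ψ u : ℝ) * Complex.I) := by
  rw [hp, Complex.exp_eq_exp_iff_exists_int]
  exact ⟨m, by push_cast; ring⟩

include hψ hpos hp in
theorem H_curve {m : ℤ} (hm : m ≠ 0) {δ : ℝ} (h0 : 0 ≤ δ) (h1 : δ < 1) :
    IsClosedCurve (fun u => hh m δ (ψ u)) where
  smooth := H_smooth hψ m δ
  periodic u := by
    show hh m δ (ψ (u + 1)) = hh m δ (ψ u)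
    unfold hh
    rw [exp_per hp]
    rw [hp, Real.cos_add_two_pi]
  immersed u := by
    rw [H_deriv hψ]
    refine mul_ne_zero (by exact_mod_cast (hpos u).ne') ?_
    rw [← norm_pos_iff]
    have h2 := norm_hh'_sq m δ (ψ u)
    have h3 : (m : ℝ) * (1 + δ * Real.cos (ψ u)) ≠ 0 := by
      refine mul_ne_zero (by exact_mod_cast hm) ?_
      have := Real.neg_one_le_cos (ψ u)
      nlinarith
    have h4 : 0 < ‖hh' m δ (ψ u)‖ ^ 2 := by
      rw [h2]
      have := sq_nonneg (δ * Real.sin (ψ u))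
      have := pow_pos (abs_pos.2 h3) 2
      rw [sq_abs] at this
      linarith
    exact lt_of_le_of_ne (norm_nonneg _) fun h => by rw [← h] at h4; norm_num at h4

include hψ hp in
theorem psi_integral {f : ℝ → ℝ} (hf : Continuous f) :
    ∫ u in (0 : ℝ)..1, f (ψ u) * deriv ψ u = ∫ x in (ψ 0)..(ψ 0 + 2 * Real.pi), f x := by
  have hc : Continuous (deriv ψ) := (contDiff_infty_iff_deriv.1 hψ).2.continuous
  have h1 := intervalIntegral.integral_comp_mul_deriv (a := 0) (b := 1) (g := f) (f := ψ)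
    (f' := deriv ψ) (fun u _ => (hψ.differentiable (by simp) u).hasDerivAt) hc.continuousOn hf
  have h2 := hp 0
  rw [zero_add] at h2
  rw [← h2]
  exact h1

theorem int_cos (a : ℝ) : ∫ x in a..(a + 2 * Real.pi), Real.cos x = 0 := by
  rw [integral_cos, Real.sin_add_two_pi, sub_self]

theorem int_cos_sq (a : ℝ) : ∫ x in a..(a + 2 * Real.pi), Real.cos x ^ 2 = Real.pi := by
  rw [integral_cos_sq, Real.sin_add_two_pi, Real.cos_add_two_pi]
  ring

theorem int_sin_sq (a : ℝ) : ∫ x in a..(a + 2 * Real.pi), Real.sin x ^ 2 = Real.pi := by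
  rw [integral_sin_sq, Real.sin_add_two_pi, Real.cos_add_two_pi]
  ring

include hψ hp in
theorem area_H (m : ℤ) (δ : ℝ) :
    area (fun u => hh m δ (ψ u)) = (m : ℝ) * Real.pi * (1 + δ ^ 2 / 2) := by
  unfold area
  have h1 : ∀ u, (conj (hh m δ (ψ u)) * deriv (fun u => hh m δ (ψ u)) u).im / 2 =
      (fun x => (m : ℝ) / 2 * (1 + δ * Real.cos x) ^ 2) (ψ u) * deriv ψ u := by
    intro u
    rw [H_deriv hψ]
    have h2 : conj (hh m δ (ψ u)) * (((deriv ψ u : ℝ) : ℂ) * hh' m δ (ψ u)) =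
        ((deriv ψ u : ℝ) : ℂ) * (conj (hh m δ (ψ u)) * hh' m δ (ψ u)) := by ring
    rw [h2, Complex.im_ofReal_mul, conj_hh_mul]
    ring
  simp only [h1]
  rw [psi_integral hψ hp (f := fun x => (m : ℝ) / 2 * (1 + δ * Real.cos x) ^ 2) (by fun_prop)]
  have h2 : ∀ x : ℝ, (m : ℝ) / 2 * (1 + δ * Real.cos x) ^ 2 =
      ((m : ℝ) / 2 + (m : ℝ) * δ * Real.cos x) + (m : ℝ) / 2 * δ ^ 2 * Real.cos x ^ 2 := by
    intro x; ring
  simp only [h2]
  have c1 : Continuous (fun x : ℝ => (m : ℝ) / 2 + (m : ℝ) * δ * Real.cos x) := by fun_prop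
  have c2 : Continuous (fun x : ℝ => (m : ℝ) / 2 * δ ^ 2 * Real.cos x ^ 2) := by fun_prop
  have c3 : Continuous (fun x : ℝ => (m : ℝ) * δ * Real.cos x) := by fun_prop
  rw [intervalIntegral.integral_add (c1.intervalIntegrable _ _) (c2.intervalIntegrable _ _),
    intervalIntegral.integral_add (continuous_const.intervalIntegrable _ _)
      (c3.intervalIntegrable _ _), intervalIntegral.integral_const_mul,
    intervalIntegral.integral_const_mul, int_cos, int_cos_sq, intervalIntegral.integral_const]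
  rw [smul_eq_mul]
  ring

include hψ hpos hp in
theorem len_H_zero (m : ℤ) : len (fun u => hh m 0 (ψ u)) = 2 * Real.pi * |(m : ℝ)| := by
  unfold len
  have h1 : ∀ u, ‖deriv (fun u => hh m 0 (ψ u)) u‖ =
      (fun _ => |(m : ℝ)|) (ψ u) * deriv ψ u := by
    intro u
    rw [H_deriv hψ, norm_mul, Complex.norm_real, Real.norm_eq_abs, abs_of_pos (hpos u)]
    have h2 : ‖hh' m 0 (ψ u)‖ = |(m : ℝ)| := by
      have h3 := norm_hh'_sq m 0 (ψ u)
      have h4 : ‖hh' m 0 (ψ u)‖ ^ 2 = |(m : ℝ)| ^ 2 := by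
        rw [h3, sq_abs]; ring
      exact (sq_eq_sq₀ (norm_nonneg _) (abs_nonneg _)).1 h4
    rw [h2, mul_comm]
  simp only [h1]
  rw [psi_integral hψ hp (f := fun _ => |(m : ℝ)|) continuous_const,
    intervalIntegral.integral_const, smul_eq_mul]
  ring

include hψ hpos hp in
theorem len_H_le {m : ℤ} (hm : 2 ≤ |(m : ℝ)|) {δ : ℝ} (h0 : 0 ≤ δ) (h1 : δ ≤ 1 / 2) :
    len (fun u => hh m δ (ψ u)) ≤ 2 * Real.pi * |(m : ℝ)| + δ ^ 2 * Real.pi / 2 := by
  have hm0 : m ≠ 0 := by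
    rintro rfl
    norm_num at hm
  have hH := H_curve hψ hpos hp hm0 h0 (by linarith : δ < 1)
  have cψ : Continuous ψ := hψ.continuous
  have cψ' : Continuous (deriv ψ) := (contDiff_infty_iff_deriv.1 hψ).2.continuous
  have h2 : ∀ θ, ‖hh' m δ θ‖ ≤ |(m : ℝ)| * (1 + δ * Real.cos θ) + δ ^ 2 / 2 * Real.sin θ ^ 2 := by
    intro θ
    have hc1 := Real.neg_one_le_cos θ
    have hX : 1 ≤ |(m : ℝ)| * (1 + δ * Real.cos θ) := by
      have : (1 : ℝ) / 2 ≤ 1 + δ * Real.cos θ := by nlinarith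
      nlinarith
    have h3 := norm_hh'_sq m δ θ
    refine le_of_sq_le_sq ?_ (by positivity)
    have h6 : (δ * Real.sin θ) ^ 2 + ((m : ℝ) * (1 + δ * Real.cos θ)) ^ 2 =
        δ ^ 2 * Real.sin θ ^ 2 + |(m : ℝ)| ^ 2 * (1 + δ * Real.cos θ) ^ 2 := by
      rw [sq_abs]; ring
    rw [h3, h6]
    set X := |(m : ℝ)| * (1 + δ * Real.cos θ) with hXd
    have h4 : |(m : ℝ)| ^ 2 * (1 + δ * Real.cos θ) ^ 2 = X ^ 2 := by rw [hXd]; ring
    rw [h4]
    have h5 : 0 ≤ δ ^ 2 * Real.sin θ ^ 2 := by positivity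
    nlinarith [mul_nonneg (sub_nonneg.2 hX) h5, sq_nonneg (δ ^ 2 / 2 * Real.sin θ ^ 2)]
  have h3 : len (fun u => hh m δ (ψ u)) ≤ ∫ u in (0 : ℝ)..1,
      (fun x => |(m : ℝ)| * (1 + δ * Real.cos x) + δ ^ 2 / 2 * Real.sin x ^ 2) (ψ u) *
        deriv ψ u := by
    unfold len
    refine intervalIntegral.integral_mono_on zero_le_one
      (hH.continuous_deriv.norm.intervalIntegrable _ _) ?_ ?_
    · refine Continuous.intervalIntegrable ?_ _ _
      exact Continuous.mul (by fun_prop) cψ'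
    · intro u _
      rw [H_deriv hψ, norm_mul, Complex.norm_real, Real.norm_eq_abs, abs_of_pos (hpos u), mul_comm]
      exact mul_le_mul_of_nonneg_right (h2 (ψ u)) (hpos u).le
  refine h3.trans (le_of_eq ?_)
  rw [psi_integral hψ hp (f := fun x => |(m : ℝ)| * (1 + δ * Real.cos x) +
    δ ^ 2 / 2 * Real.sin x ^ 2) (by fun_prop)]
  have h4 : ∀ x : ℝ, |(m : ℝ)| * (1 + δ * Real.cos x) + δ ^ 2 / 2 * Real.sin x ^ 2 =
      (|(m : ℝ)| + |(m : ℝ)| * δ * Real.cos x) + δ ^ 2 / 2 * Real.sin x ^ 2 := by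
    intro x; ring
  simp only [h4]
  have c1 : Continuous (fun x : ℝ => |(m : ℝ)| + |(m : ℝ)| * δ * Real.cos x) := by fun_prop
  have c2 : Continuous (fun x : ℝ => δ ^ 2 / 2 * Real.sin x ^ 2) := by fun_prop
  have c3 : Continuous (fun x : ℝ => |(m : ℝ)| * δ * Real.cos x) := by fun_prop
  rw [intervalIntegral.integral_add (c1.intervalIntegrable _ _) (c2.intervalIntegrable _ _),
    intervalIntegral.integral_add (continuous_const.intervalIntegrable _ _)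
      (c3.intervalIntegrable _ _), intervalIntegral.integral_const_mul,
    intervalIntegral.integral_const_mul, int_cos, int_sin_sq, intervalIntegral.integral_const]
  rw [smul_eq_mul]
  ring

end

/-- main theorem -/
theorem main {γ : ℝ → ℂ} (hγ : IsClosedCurve γ) (h : IsDynStable γ) : IsCircle γ := by
  obtain ⟨c, w, m, ψ, hw, hm0, hψ, hpos, hp, hform⟩ := classify hγ (curv_const hγ h)
  by_cases hm : (m : ℝ) * m = 1
  · exact isCircle_of_one hw hm hψ hpos hp hform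
  exfalso
  have hm2 : 2 ≤ |(m : ℝ)| := by
    have h1 : 2 ≤ |m| := by
      by_contra hcon
      push Not at hcon
      have h2 : 1 ≤ |m| := Int.one_le_abs hm0
      have h3 : |m| = 1 := by omega
      apply hm
      have h4 : m * m = 1 := by
        rw [← abs_mul_abs_self, h3]; norm_num
      exact_mod_cast h4
    have h2 : (2 : ℝ) ≤ ((|m| : ℤ) : ℝ) := by exact_mod_cast h1
    rwa [Int.cast_abs] at h2
  -- the perturbation
  set g : ℝ → ℂ := fun u => w * (((Real.cos (ψ u) : ℝ) : ℂ) *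
    Complex.exp (((m : ℝ) * ψ u : ℝ) * Complex.I)) with hg
  have hgs : ContDiff ℝ ∞ g := by
    have h1 : ContDiff ℝ ∞ (fun u : ℝ => ((Real.cos (ψ u) : ℝ) : ℂ)) :=
      Complex.ofRealCLM.contDiff.comp (Real.contDiff_cos.comp hψ)
    have h2 : ContDiff ℝ ∞ (fun u : ℝ => (((m : ℝ) * ψ u : ℝ) : ℂ)) :=
      Complex.ofRealCLM.contDiff.comp (contDiff_const.mul hψ)
    exact contDiff_const.mul (h1.mul (h2.mul contDiff_const).cexp)
  have hgp : ∀ u, g (u + 1) = g u := by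
    intro u
    show w * (((Real.cos (ψ (u + 1)) : ℝ) : ℂ) *
      Complex.exp (((m : ℝ) * ψ (u + 1) : ℝ) * Complex.I)) = w * (((Real.cos (ψ u) : ℝ) : ℂ) *
      Complex.exp (((m : ℝ) * ψ u : ℝ) * Complex.I))
    rw [exp_per hp, hp, Real.cos_add_two_pi]
  obtain ⟨δ₀, hδ₀, hmin⟩ := iso_min hγ h hgs hgp
  set δ := min δ₀ (1 / 2) with hδ
  have hδpos : 0 < δ := lt_min hδ₀ (by norm_num)
  have hδ2 : δ ≤ 1 / 2 := min_le_right _ _
  have h1 := hmin δ hδpos (min_le_left _ _)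
  have e0 : γ = fun u => w * (fun u => hh m 0 (ψ u)) u + c := by
    funext u
    rw [hform u]
    unfold hh
    push_cast
    ring
  have e1 : (fun u => γ u + (δ : ℂ) * g u) = fun u => w * (fun u => hh m δ (ψ u)) u + c := by
    funext u
    rw [hform u]
    simp only [hg]
    unfold hh
    push_cast
    ring
  have hH0 := H_curve hψ hpos hp hm0 (le_refl (0 : ℝ)) one_pos
  have hHδ := H_curve hψ hpos hp hm0 hδpos.le (by linarith : δ < 1)
  have l0 : len γ = ‖w‖ * (2 * Real.pi * |(m : ℝ)|) := by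
    rw [e0, hH0.len_affine, len_H_zero hψ hpos hp]
  have a0 : |area γ| = ‖w‖ ^ 2 * (|(m : ℝ)| * Real.pi) := by
    rw [e0, hH0.area_affine, area_H hψ hp, abs_mul, abs_mul, abs_mul, abs_of_pos Real.pi_pos,
      abs_of_nonneg (by positivity : 0 ≤ ‖w‖ ^ 2)]
    norm_num
  have a1 : |area (fun u => γ u + (δ : ℂ) * g u)| =
      ‖w‖ ^ 2 * (|(m : ℝ)| * Real.pi * (1 + δ ^ 2 / 2)) := by
    rw [e1, hHδ.area_affine, area_H hψ hp, abs_mul, abs_mul, abs_mul, abs_of_pos Real.pi_pos,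
      abs_of_nonneg (by positivity : 0 ≤ ‖w‖ ^ 2),
      abs_of_pos (by positivity : 0 < 1 + δ ^ 2 / 2)]
  have l1 : len (fun u => γ u + (δ : ℂ) * g u) ≤
      ‖w‖ * (2 * Real.pi * |(m : ℝ)| * (1 + δ ^ 2 / 8)) := by
    rw [e1, hHδ.len_affine]
    refine mul_le_mul_of_nonneg_left ?_ (norm_nonneg _)
    refine (len_H_le hψ hpos hp hm2 hδpos.le hδ2).trans ?_
    have h2 : 0 ≤ δ ^ 2 * Real.pi := by positivity
    nlinarith
  have l1' : 0 ≤ len (fun u => γ u + (δ : ℂ) * g u) := by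
    unfold len
    exact intervalIntegral.integral_nonneg zero_le_one fun u _ => norm_nonneg _
  have l2 : len (fun u => γ u + (δ : ℂ) * g u) ^ 2 ≤
      (‖w‖ * (2 * Real.pi * |(m : ℝ)| * (1 + δ ^ 2 / 8))) ^ 2 := pow_le_pow_left₀ l1' l1 2
  have hwn : 0 < ‖w‖ := norm_pos_iff.2 hw
  have hpi := Real.pi_pos
  have h2 : (‖w‖ * (2 * Real.pi * |(m : ℝ)|)) ^ 2 *
      (‖w‖ ^ 2 * (|(m : ℝ)| * Real.pi * (1 + δ ^ 2 / 2))) ≤
      (‖w‖ * (2 * Real.pi * |(m : ℝ)| * (1 + δ ^ 2 / 8))) ^ 2 *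
        (‖w‖ ^ 2 * (|(m : ℝ)| * Real.pi)) := by
    rw [← l0, ← a1, ← a0]
    exact h1.trans (mul_le_mul_of_nonneg_right l2 (abs_nonneg _))
  have hK : 0 < (‖w‖ * (2 * Real.pi * |(m : ℝ)|)) ^ 2 * (‖w‖ ^ 2 * (|(m : ℝ)| * Real.pi)) := by
    have : 0 < |(m : ℝ)| := by linarith
    positivity
  have h3 : ((‖w‖ * (2 * Real.pi * |(m : ℝ)|)) ^ 2 * (‖w‖ ^ 2 * (|(m : ℝ)| * Real.pi))) *
      (1 + δ ^ 2 / 2) ≤
      ((‖w‖ * (2 * Real.pi * |(m : ℝ)|)) ^ 2 * (‖w‖ ^ 2 * (|(m : ℝ)| * Real.pi))) *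
      (1 + δ ^ 2 / 8) ^ 2 := by
    calc _ = (‖w‖ * (2 * Real.pi * |(m : ℝ)|)) ^ 2 *
      (‖w‖ ^ 2 * (|(m : ℝ)| * Real.pi * (1 + δ ^ 2 / 2))) := by ring
      _ ≤ _ := h2
      _ = _ := by ring
  have h4 := le_of_mul_le_mul_left h3 hK
  have h5 : 0 < δ ^ 2 := by positivity
  have h6 : δ ^ 2 ≤ 1 / 4 := by nlinarith
  nlinarith

end Pool.Agent.TH623.CD
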