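import Pool.Agent.TH623.CD.Multi

/-!
# Dynamically stable curves of the curve diffusion flow are circles

Along the curve diffusion flow the length `L` does not increase and the signed area `A` is
constant, so the scale-invariant ratio `L² / |A|` does not increase; it passes to limits modulo
similarity. Let `γ` be dynamically stable.

* If `A(γ) = 0`, then for nearby initial curves `η` with `A(η) ≠ 0` the scaling factors tend to
  `0`, so that the rescaled lengths tend to `0` and not to `L(γ)`. Hence `A(γ) ≠ 0`.
* The flow starting from `γ` itself has `L² / |A|` equal to its limit, so `L` is constant, the
  curvature is constant in the interior of the time interval, the flow is stationary, and `γ` is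
  an `m`-fold circle.
* `γ` minimises `L² / |A|` among nearby curves. For `|m| ≥ 2` the curves
  `c + w (1 + δ cos ψ) exp (i m ψ)` have a smaller ratio than the `m`-fold circle `δ = 0`.
-/

set_option autoImplicit false

open Pool.Agent.TH623.CD

namespace Pool.Agent.TH623.CD.OnlyCircles

/-- Every smooth closed immersed plane curve which is dynamically stable for the curve diffusion
flow is a round circle traversed once. -/
theorem only_circles (γ : ℝ → ℂ) (hγ : IsClosedCurve γ) (h : IsDynStable γ) : IsCircle γ :=
  main hγ h

end Pool.Agent.TH623.CD.OnlyCircles
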