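import Pool.Agent.TH623.CD.Conv

set_option autoImplicit false

open Set Filter MeasureTheory
open scoped Topology ContDiff ComplexConjugate

namespace Pool.Agent.TH623.CD

theorem periodic_bounded {F : Type} [NormedAddCommGroup F] {f : ℝ → F} (hf : Continuous f)
    (hp : ∀ u, f (u + 1) = f u) : ∃ C : ℝ, 0 ≤ C ∧ ∀ u, ‖f u‖ ≤ C := by
  obtain ⟨C, hC⟩ := isCompact_Icc.exists_bound_of_continuousOn (s := Icc (0 : ℝ) 1) hf.continuousOn
  have hper : Function.Periodic f 1 := hp
  refine ⟨C, (norm_nonneg _).trans (hC 0 ⟨le_rfl, zero_le_one⟩), fun u => ?_⟩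
  obtain ⟨v, hv, huv⟩ := hper.exists_mem_Ico₀ zero_lt_one u
  rw [huv]
  exact hC v ⟨hv.1, hv.2.le⟩

theorem iteratedDeriv_per {g : ℝ → ℂ} (hp : ∀ u, g (u + 1) = g u) (j : ℕ) :
    ∀ u, iteratedDeriv j g (u + 1) = iteratedDeriv j g u := by
  induction j with
  | zero => intro u; simpa using hp u
  | succ j ih =>
    intro u
    rw [iteratedDeriv_succ, ← deriv_comp_add_const]
    congr 1
    funext u
    exact ih u

theorem deriv_lower {γ : ℝ → ℂ} (hγ : IsClosedCurve γ) : ∃ c : ℝ, 0 < c ∧ ∀ u, c ≤ ‖deriv γ u‖ := by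
  obtain ⟨v, -, hmin⟩ := (isCompact_Icc (a := (0 : ℝ)) (b := 1)).exists_isMinOn
    ⟨0, le_rfl, zero_le_one⟩ hγ.continuous_deriv.norm.continuousOn
  refine ⟨‖deriv γ v‖, hγ.speed_pos v, fun u => ?_⟩
  have hper : Function.Periodic (deriv γ) 1 := hγ.deriv_per
  obtain ⟨w, hw, huw⟩ := hper.exists_mem_Ico₀ zero_lt_one u
  rw [huw]
  exact hmin ⟨hw.1, hw.2.le⟩

theorem iteratedDeriv_pert {γ g : ℝ → ℂ} (hγ : ContDiff ℝ ∞ γ) (hg : ContDiff ℝ ∞ g) (δ : ℝ)
    (j : ℕ) (u : ℝ) :
    iteratedDeriv j (fun u => γ u + (δ : ℂ) * g u) u =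
      iteratedDeriv j γ u + (δ : ℂ) * iteratedDeriv j g u := by
  induction j generalizing u with
  | zero => simp
  | succ j ih =>
    have h1 : iteratedDeriv j (fun u => γ u + (δ : ℂ) * g u) =
        fun u => iteratedDeriv j γ u + (δ : ℂ) * iteratedDeriv j g u := funext ih
    rw [iteratedDeriv_succ, iteratedDeriv_succ, iteratedDeriv_succ, h1]
    have h2 : Differentiable ℝ (iteratedDeriv j γ) :=
      hγ.differentiable_iteratedDeriv j (by exact_mod_cast WithTop.coe_lt_top _)
    have h3 : Differentiable ℝ (iteratedDeriv j g) :=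
      hg.differentiable_iteratedDeriv j (by exact_mod_cast WithTop.coe_lt_top _)
    exact ((h2 u).hasDerivAt.add ((h3 u).hasDerivAt.const_mul (δ : ℂ))).deriv

/-- small smooth perturbations of a closed curve -/
theorem perturb {γ g : ℝ → ℂ} (hγ : IsClosedCurve γ) (hg : ContDiff ℝ ∞ g)
    (hgp : ∀ u, g (u + 1) = g u) (N : ℕ) {ε : ℝ} (hε : 0 < ε) :
    ∃ δ₀ : ℝ, 0 < δ₀ ∧ ∀ δ : ℝ, |δ| ≤ δ₀ → IsClosedCurve (fun u => γ u + (δ : ℂ) * g u) ∧
      ∀ j ≤ N, ∀ u, ‖iteratedDeriv j (fun u => γ u + (δ : ℂ) * g u) u -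
        iteratedDeriv j γ u‖ < ε := by
  have hb : ∀ j : ℕ, ∃ C : ℝ, 0 ≤ C ∧ ∀ u, ‖iteratedDeriv j g u‖ ≤ C := fun j =>
    periodic_bounded (hg.continuous_iteratedDeriv j (by exact_mod_cast le_top))
      (iteratedDeriv_per hgp j)
  choose C hC0 hC using hb
  obtain ⟨c, hc, hcl⟩ := deriv_lower hγ
  set B : ℝ := ∑ j ∈ Finset.range (N + 2), C j with hB
  have hB0 : 0 ≤ B := Finset.sum_nonneg fun j _ => hC0 j
  have hBj : ∀ j ≤ N + 1, C j ≤ B := fun j hj =>
    Finset.single_le_sum (fun i _ => hC0 i) (Finset.mem_range.2 (by omega))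
  have hm : 0 < min c ε := lt_min hc hε
  refine ⟨min c ε / (2 * (B + 1)), by positivity, fun δ hδ => ?_⟩
  have hsmall : ∀ j ≤ N + 1, ∀ u, ‖(δ : ℂ) * iteratedDeriv j g u‖ < min c ε := by
    intro j hj u
    rw [norm_mul, Complex.norm_real, Real.norm_eq_abs]
    have h1 : |δ| * ‖iteratedDeriv j g u‖ ≤ min c ε / (2 * (B + 1)) * (B + 1) :=
      mul_le_mul hδ ((hC j u).trans ((hBj j hj).trans (by linarith))) (norm_nonneg _)
        (by positivity)
    have h2 : min c ε / (2 * (B + 1)) * (B + 1) = min c ε / 2 := by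
      field_simp
    rw [h2] at h1
    linarith
  constructor
  · refine ⟨hγ.smooth.add (contDiff_const.mul hg), fun u => ?_, fun u h0 => ?_⟩
    · show γ (u + 1) + (δ : ℂ) * g (u + 1) = γ u + (δ : ℂ) * g u
      rw [hγ.periodic, hgp]
    · have h1 := iteratedDeriv_pert hγ.smooth hg δ 1 u
      rw [iteratedDeriv_one, iteratedDeriv_one, h0] at h1
      have h2 := hsmall 1 (by omega) u
      have h3 : (δ : ℂ) * iteratedDeriv 1 g u = -deriv γ u := by linear_combination -h1
      rw [h3, norm_neg] at h2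
      have := hcl u
      have := min_le_left c ε
      linarith
  · intro j hj u
    rw [iteratedDeriv_pert hγ.smooth hg, add_sub_cancel_left]
    exact (hsmall j (by omega) u).trans_le (min_le_right _ _)

/-- parallelogram identity for the area -/
theorem area_add_sub {γ g : ℝ → ℂ} (hγ : ContDiff ℝ ∞ γ) (hg : ContDiff ℝ ∞ g) (δ : ℝ) :
    area (fun u => γ u + (δ : ℂ) * g u) + area (fun u => γ u + ((-δ : ℝ) : ℂ) * g u) =
      2 * area γ + 2 * δ ^ 2 * area g := by
  have hd : ∀ (δ : ℝ) u, deriv (fun u => γ u + (δ : ℂ) * g u) u =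
      deriv γ u + (δ : ℂ) * deriv g u := fun δ u =>
    ((hγ.differentiable (by simp) u).hasDerivAt.add
      ((hg.differentiable (by simp) u).hasDerivAt.const_mul (δ : ℂ))).deriv
  have cγ := (contDiff_infty_iff_deriv.1 hγ).2.continuous
  have cg := (contDiff_infty_iff_deriv.1 hg).2.continuous
  have hcont : ∀ (δ : ℝ), Continuous (fun u => (conj (γ u + (δ : ℂ) * g u) *
      (deriv γ u + (δ : ℂ) * deriv g u)).im / 2) := fun δ =>
    (Complex.continuous_im.comp ((Complex.continuous_conj.comp (hγ.continuous.add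
      (continuous_const.mul hg.continuous))).mul (cγ.add (continuous_const.mul cg)))).div_const 2
  have c1 : Continuous (fun u => (conj (γ u) * deriv γ u).im / 2) :=
    (Complex.continuous_im.comp ((Complex.continuous_conj.comp hγ.continuous).mul cγ)).div_const 2
  have c2 : Continuous (fun u => (conj (g u) * deriv g u).im / 2) :=
    (Complex.continuous_im.comp ((Complex.continuous_conj.comp hg.continuous).mul cg)).div_const 2
  have c3 : Continuous (fun u => 2 * ((conj (γ u) * deriv γ u).im / 2)) := continuous_const.mul c1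
  have c4 : Continuous (fun u => 2 * δ ^ 2 * ((conj (g u) * deriv g u).im / 2)) :=
    continuous_const.mul c2
  unfold area
  simp only [hd]
  rw [← intervalIntegral.integral_add ((hcont δ).intervalIntegrable _ _)
    ((hcont (-δ)).intervalIntegrable _ _), ← intervalIntegral.integral_const_mul,
    ← intervalIntegral.integral_const_mul,
    ← intervalIntegral.integral_add (c3.intervalIntegrable _ _) (c4.intervalIntegrable _ _)]
  congr 1
  funext u
  simp only [map_add, map_mul, Complex.conj_ofReal, Complex.mul_im, Complex.mul_re,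
    Complex.add_re, Complex.add_im, Complex.ofReal_re, Complex.ofReal_im]
  ring

/-- the standard circle -/
noncomputable def circ (u : ℝ) : ℂ := Complex.exp ((2 * Real.pi * u : ℝ) * Complex.I)

theorem circ_smooth : ContDiff ℝ ∞ circ := by
  have h1 : ContDiff ℝ ∞ (fun u : ℝ => ((2 * Real.pi * u : ℝ) : ℂ)) :=
    Complex.ofRealCLM.contDiff.comp (contDiff_const.mul contDiff_id)
  exact (h1.mul contDiff_const).cexp

theorem circ_periodic (u : ℝ) : circ (u + 1) = circ u := by
  unfold circ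
  rw [Complex.exp_eq_exp_iff_exists_int]
  exact ⟨1, by push_cast; ring⟩

theorem circ_deriv (u : ℝ) : deriv circ u = (2 * Real.pi : ℝ) * Complex.I * circ u := by
  have h1 : HasDerivAt (fun u : ℝ => ((2 * Real.pi * u : ℝ) : ℂ)) ((2 * Real.pi : ℝ) : ℂ) u := by
    have h2 : HasDerivAt (fun u : ℝ => 2 * Real.pi * u) (2 * Real.pi) u := by
      simpa using (hasDerivAt_id u).const_mul (2 * Real.pi)
    exact h2.ofReal_comp
  have h3 := (h1.mul_const Complex.I).cexp
  have h4 := h3.deriv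
  unfold circ
  rw [h4]; ring

theorem area_circ : area circ = Real.pi := by
  unfold area
  have h1 : ∀ u, (conj (circ u) * deriv circ u).im / 2 = Real.pi := by
    intro u
    rw [circ_deriv]
    have h2 : conj (circ u) * circ u = 1 := by
      rw [mul_comm, Complex.mul_conj, Complex.normSq_eq_norm_sq]
      unfold circ
      rw [Complex.norm_exp_ofReal_mul_I]; norm_num
    have h3 : conj (circ u) * ((2 * Real.pi : ℝ) * Complex.I * circ u) =
        (2 * Real.pi : ℝ) * Complex.I := by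
      linear_combination ((2 * Real.pi : ℝ) * Complex.I) * h2
    rw [h3, Complex.im_ofReal_mul, Complex.I_im]
    ring
  simp only [h1]
  simp

/-- a dynamically stable curve has nonzero area -/
theorem area_ne_zero {γ : ℝ → ℂ} (hγ : IsClosedCurve γ) (h : IsDynStable γ) : area γ ≠ 0 := by
  intro h0
  obtain ⟨N, ε, hε, hst⟩ := h
  obtain ⟨δ₀, hδ₀, hper⟩ := perturb hγ circ_smooth circ_periodic N hε
  have hz : ∀ δ : ℝ, |δ| ≤ δ₀ → area (fun u => γ u + (δ : ℂ) * circ u) = 0 := by
    intro δ hδ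
    obtain ⟨h1, h2⟩ := hper δ hδ
    obtain ⟨T, Γ, hT, hΓ, hΓ0, hconv⟩ := hst _ h1 h2
    have h3 := key_ineq hT hΓ hγ hconv (zero_mem_timeSet hT)
    rw [h0, abs_zero, mul_zero, hΓ0] at h3
    have h4 : 0 < len γ ^ 2 := pow_pos hγ.len_pos 2
    have h5 : |area (fun u => γ u + (δ : ℂ) * circ u)| ≤ 0 := by
      by_contra hcon
      push Not at hcon
      have := mul_pos h4 hcon
      linarith
    exact abs_eq_zero.1 (le_antisymm h5 (abs_nonneg _))
  have h1 := area_add_sub hγ.smooth circ_smooth δ₀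
  rw [hz δ₀ (abs_of_pos hδ₀).le, hz (-δ₀) (by rw [abs_neg, abs_of_pos hδ₀]), h0, area_circ] at h1
  have h2 : 0 < δ₀ ^ 2 * Real.pi := by positivity
  linarith

/-- for a dynamically stable curve, the flow starting at the curve has constant length, hence the
curve has constant curvature, and it minimises the isoperimetric ratio among nearby curves. -/
theorem curv_const {γ : ℝ → ℂ} (hγ : IsClosedCurve γ) (h : IsDynStable γ) :
    ∀ u, deriv (curv γ) u = 0 := by
  have hA := area_ne_zero hγ h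
  obtain ⟨N, ε, hε, hst⟩ := h
  obtain ⟨T, Γ, hT, hΓ, hΓ0, hconv⟩ := hst γ hγ (fun j _ u => by simpa using hε)
  have hA' : 0 < |area γ| := abs_pos.2 hA
  have h0T := zero_mem_timeSet hT
  -- constant length
  have hlen : ∀ t ∈ timeSet T, len (Γ t) = len γ := by
    intro t ht
    have h1 := key_ineq hT hΓ hγ hconv ht
    rw [hΓ0] at h1
    have h2 : len γ ^ 2 ≤ len (Γ t) ^ 2 := le_of_mul_le_mul_right h1 hA'
    have h3 : len γ ≤ len (Γ t) := by
      exact (pow_le_pow_iff_left₀ hγ.len_pos.le (hΓ.curve t ht).len_pos.le two_ne_zero).1 h2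
    have h4 : len (Γ t) ≤ len (Γ 0) := antitone_len hT hΓ h0T ht ht.1
    rw [hΓ0] at h4
    exact le_antisymm h4 h3
  -- constant curvature at interior times
  have hk : ∀ t ∈ openTime T, ∀ u, deriv (curv (Γ t)) u = 0 := by
    intro t ht
    have hc := hΓ.curve t (openTime_subset T ht)
    have h1 := len_deriv hΓ ht
    have h2 : HasDerivAt (fun s => len (Γ s)) 0 t := by
      refine (hasDerivAt_const t (len γ)).congr_of_eventuallyEq ?_
      filter_upwards [(isOpen_openTime T).mem_nhds ht] with s hs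
      exact hlen s (openTime_subset T hs)
    have h3 := h1.unique h2
    rw [neg_eq_zero] at h3
    have c1 : Continuous (deriv (curv (Γ t))) :=
      (contDiff_infty_iff_deriv.1 hc.contDiff_curv).2.continuous
    have c2 : Continuous (fun u => ‖deriv (Γ t) u‖⁻¹ * (deriv (curv (Γ t)) u) ^ 2) :=
      (hc.continuous_deriv.norm.inv₀ fun u => (hc.speed_pos u).ne').mul (c1.pow 2)
    have hnn : ∀ u, 0 ≤ ‖deriv (Γ t) u‖⁻¹ * (deriv (curv (Γ t)) u) ^ 2 := fun u =>
      mul_nonneg (inv_nonneg.2 (norm_nonneg _)) (sq_nonneg _)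
    have h4 : ∀ u ∈ Ico (0 : ℝ) 1, deriv (curv (Γ t)) u = 0 := by
      intro u hu
      by_contra hne
      have h5 : 0 < ∫ u in (0 : ℝ)..1, ‖deriv (Γ t) u‖⁻¹ * (deriv (curv (Γ t)) u) ^ 2 := by
        refine intervalIntegral.integral_pos zero_lt_one c2.continuousOn (fun v _ => hnn v) ?_
        exact ⟨u, ⟨hu.1, hu.2.le⟩, mul_pos (inv_pos.2 (hc.speed_pos u)) (by positivity)⟩
      rw [h3] at h5
      exact lt_irrefl _ h5
    intro u
    have hper : Function.Periodic (deriv (curv (Γ t))) 1 := hc.deriv_periodic hc.curv_periodic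
    obtain ⟨v, hv, huv⟩ := hper.exists_mem_Ico₀ zero_lt_one u
    rw [huv]
    exact h4 v hv
  -- the flow is stationary
  have hvel : ∀ t ∈ openTime T, ∀ u, vel (Γ t) u = 0 := by
    intro t ht u
    unfold vel
    have h1 : ds (Γ t) (curv (Γ t)) = fun _ => 0 := by
      funext v
      unfold ds
      rw [hk t ht v, smul_zero]
    rw [h1]
    unfold ds
    simp
  have hstat : ∀ t ∈ timeSet T, ∀ u, Γ t u = γ u := by
    intro t ht u
    have hcont : ContinuousOn (fun t => Γ t u) (timeSet T) :=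
      hΓ.smooth.continuousOn.comp (f := fun t : ℝ => (t, u)) (by fun_prop) fun t ht => ⟨ht, trivial⟩
    rcases eq_or_lt_of_le ht.1 with h0 | h0
    · rw [← h0, hΓ0]
    have hconst : ∀ s ∈ Ioc 0 t, Γ s u = Γ t u := by
      intro s hs
      have hsub : Icc s t ⊆ openTime T := fun r hr =>
        ⟨hs.1.trans_le hr.1, lt_of_le_of_lt (by exact_mod_cast hr.2) ht.2⟩
      have hd : ∀ r ∈ Icc s t, HasDerivAt (fun t => Γ t u) 0 r := by
        intro r hr
        have := (mixed hΓ (hsub hr) u).1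
        rwa [hvel r (hsub hr) u] at this
      have h2 := constant_of_has_deriv_right_zero (f := fun t => Γ t u) (a := s) (b := t)
        (fun r hr => (hd r hr).continuousAt.continuousWithinAt)
        (fun r hr => (hd r ⟨hr.1, hr.2.le⟩).hasDerivWithinAt)
      exact (h2 t ⟨hs.2, le_rfl⟩).symm
    have h2 : Tendsto (fun t => Γ t u) (𝓝[Ioc 0 t] 0) (𝓝 (Γ 0 u)) :=
      (hcont 0 h0T).mono_left (nhdsWithin_mono _ fun s hs =>
        ⟨hs.1.le, lt_of_le_of_lt (by exact_mod_cast hs.2) ht.2⟩)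
    have h3 : Tendsto (fun t => Γ t u) (𝓝[Ioc 0 t] 0) (𝓝 (Γ t u)) :=
      tendsto_const_nhds.congr' (by
        filter_upwards [self_mem_nhdsWithin] with s hs using (hconst s hs).symm)
    have : (𝓝[Ioc 0 t] (0 : ℝ)).NeBot := by
      rw [nhdsWithin_Ioc_eq_nhdsGT h0]
      infer_instance
    rw [tendsto_nhds_unique h3 h2, hΓ0]
  obtain ⟨t, ht⟩ := exists_mem_openTime hT
  have h1 : Γ t = γ := funext (hstat t (openTime_subset T ht))
  rw [← h1]
  exact hk t ht

/-- a dynamically stable curve minimises the isoperimetric ratio among nearby curves -/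
theorem iso_min {γ : ℝ → ℂ} (hγ : IsClosedCurve γ) (h : IsDynStable γ) {g : ℝ → ℂ}
    (hg : ContDiff ℝ ∞ g) (hgp : ∀ u, g (u + 1) = g u) :
    ∃ δ₀ : ℝ, 0 < δ₀ ∧ ∀ δ : ℝ, 0 < δ → δ ≤ δ₀ →
      len γ ^ 2 * |area (fun u => γ u + (δ : ℂ) * g u)| ≤
        len (fun u => γ u + (δ : ℂ) * g u) ^ 2 * |area γ| := by
  obtain ⟨N, ε, hε, hst⟩ := h
  obtain ⟨δ₀, hδ₀, hper⟩ := perturb hγ hg hgp N hε
  refine ⟨δ₀, hδ₀, fun δ hδ hδ' => ?_⟩
  obtain ⟨h1, h2⟩ := hper δ (by rwa [abs_of_pos hδ])
  obtain ⟨T, Γ, hT, hΓ, hΓ0, hconv⟩ := hst _ h1 h2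
  have h3 := key_ineq hT hΓ hγ hconv (zero_mem_timeSet hT)
  rwa [hΓ0] at h3

end Pool.Agent.TH623.CD
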